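import Pool.Agent.H61.XR2.XND

/-!
# XR2, row LDF: accumulation on one side and a differentiable X-ray
-/

set_option autoImplicit false

open MeasureTheory Set Filter Topology Metric Asymptotics
open scoped Real ENNReal

namespace Pool.XR2

open Pool.Agent.H45.XR Pool.Agent.H61.XR2

lemma ldf_tc_le (φ : ℝ) (z : ℂ) : |tc φ z| ≤ ‖z‖ := by
  have h := decomp φ z
  have h1 : ‖z‖ ^ 2 = yc φ z ^ 2 + tc φ z ^ 2 := by
    rw [← Complex.normSq_eq_norm_sq, Complex.normSq_apply]
    have hs := Real.sin_sq_add_cos_sq φ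
    simp only [tc, yc]
    linear_combination -(z.re ^ 2 + z.im ^ 2) * hs
  rw [← abs_of_nonneg (norm_nonneg z), ← sq_le_sq, h1]
  nlinarith [sq_nonneg (yc φ z)]

/-- If the boundary is near `z` the graph of `w` over `tc φ` and `w` is differentiable, with a
tangent which misses the origin, then `rad` is differentiable. -/
lemma ldf_rad_diff {C : Set ℂ} (hC : Body C) (φ z a : ℝ) (w : ℝ → ℝ)
    (hw : HasDerivAt w a (tc φ (pt C z)))
    (hev : ∀ᶠ x in 𝓝 z, yc φ (pt C x) = w (tc φ (pt C x)))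
    (hc : w (tc φ (pt C z)) - a * tc φ (pt C z) ≠ 0) : DifferentiableAt ℝ (rad C) z := by
  obtain ⟨L, hL⟩ := pt_lipschitz hC
  set T : ℝ → ℝ := fun x => tc φ (pt C x) with hT
  have hTc : Continuous T := (continuous_tc φ).comp hL.continuous
  have hTO : (fun x => T x - T z) =O[𝓝 z] (fun x => x - z) := by
    refine IsBigO.of_bound L (Eventually.of_forall fun x => ?_)
    rw [Real.norm_eq_abs, Real.norm_eq_abs, hT]
    simp only
    rw [← tc_sub]
    refine (ldf_tc_le φ _).trans ?_
    have := hL.dist_le_mul x z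
    rwa [dist_eq_norm, Real.dist_eq] at this
  set R : ℝ → ℝ := fun x => w (T x) - w (T z) - a * (T x - T z) with hR
  have hRo : R =o[𝓝 z] (fun x => x - z) := by
    have h1 := hw.isLittleO
    have h2 : Tendsto T (𝓝 z) (𝓝 (T z)) := hTc.tendsto z
    have h3 := (h1.comp_tendsto h2).trans_isBigO hTO
    refine h3.congr_left fun x => ?_
    simp only [Function.comp, hR, smul_eq_mul]
    ring
  have hRd : HasDerivAt R 0 z := by
    rw [hasDerivAt_iff_isLittleO]
    refine hRo.congr_left fun x => ?_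
    simp [hR]
  set c : ℝ := w (T z) - a * T z with hcdef
  set k : ℝ → ℝ := fun x => Real.cos (x - φ) - a * Real.sin (x - φ) with hk
  have hkd : Differentiable ℝ k := by
    intro x
    simp only [hk]
    fun_prop
  have hrk : ∀ᶠ x in 𝓝 z, rad C x * k x = c + R x := by
    filter_upwards [hev] with x hx
    have h1 : rad C x * k x = yc φ (pt C x) - a * tc φ (pt C x) := by
      rw [yc_pt, tc_pt]; simp only [hk]; ring
    rw [h1, hx]
    simp only [hcdef, hR, hT]
    ring
  have hkz : k z ≠ 0 := by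
    intro h
    have h1 := hrk.self_of_nhds
    rw [h, mul_zero] at h1
    have h2 : R z = 0 := by simp [hR]
    rw [h2, add_zero] at h1
    exact hc h1.symm
  have hk0 : ∀ᶠ x in 𝓝 z, k x ≠ 0 := hkd.continuous.continuousAt.eventually_ne hkz
  have hEq : rad C =ᶠ[𝓝 z] fun x => (c + R x) / k x := by
    filter_upwards [hrk, hk0] with x h1 h2
    rw [eq_div_iff h2, h1]
  refine DifferentiableAt.congr_of_eventuallyEq ?_ hEq
  exact ((differentiableAt_const c).add hRd.differentiableAt).div (hkd z) hkz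

/-- The upper point of a chord. -/
lemma ldf_up {C : Set ℂ} (hC : Body C) {φ : ℝ} (hS : NoSeg C φ) {x x' : ℝ}
    (ht : tc φ (pt C x') = tc φ (pt C x)) (hy : yc φ (pt C x') < yc φ (pt C x)) :
    yc φ (pt C x) = up (grf C φ) (tc φ (pt C x)) := by
  have hcpt := grf_compact hC.cpt φ
  have hlev : tc φ (pt C x) ∈ lev (grf C φ) := ⟨_, grf_mem (pt_mem hC x)⟩
  have h1 : yc φ (pt C x) ≤ up (grf C φ) (tc φ (pt C x)) := le_up hcpt (grf_mem (pt_mem hC x))
  by_contra hne
  have h2 : yc φ (pt C x) < up (grf C φ) (tc φ (pt C x)) := lt_of_le_of_ne h1 hne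
  set U : ℂ := fr φ (tc φ (pt C x), up (grf C φ) (tc φ (pt C x))) with hU
  have hUC : U ∈ C := up_mem hcpt hlev
  have hUt : tc φ U = tc φ (pt C x) := tc_fr φ _
  have hUy : yc φ U = up (grf C φ) (tc φ (pt C x)) := xnd_yc_fr φ _
  have hUi : U ∉ interior C := by
    intro hi
    rw [mem_interior_iff_mem_nhds] at hi
    have h3 : Tendsto (fun s : ℝ => U + s * e φ) (𝓝[>] 0) (𝓝 U) := by
      have h4 : Continuous (fun s : ℝ => U + s * e φ) := by fun_prop
      have h5 := h4.tendsto 0
      simp only [Complex.ofReal_zero, zero_mul, add_zero] at h5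
      exact h5.mono_left nhdsWithin_le_nhds
    have h6 : ∀ᶠ s : ℝ in 𝓝[>] 0, U + s * e φ ∈ C := h3.eventually hi
    obtain ⟨s, hs, hs0⟩ := (h6.and self_mem_nhdsWithin).exists
    have h7 := grf_mem (φ := φ) hs
    have h8 : tc φ (U + s * e φ) = tc φ (pt C x) := by
      rw [tc_add, tc_mul, tc_e_self, hUt]; ring
    have h9 : yc φ (U + s * e φ) = up (grf C φ) (tc φ (pt C x)) + s := by
      rw [yc_add, yc_mul, yc_e_self, hUy]; ring
    rw [h8, h9] at h7
    have h10 := le_up hcpt h7
    have : (0 : ℝ) < s := hs0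
    linarith
  have ne1 : U ≠ pt C x := fun h => by rw [← hUy, h] at h2; exact lt_irrefl _ h2
  have ne2 : U ≠ pt C x' := fun h => by rw [← hUy, h] at h2; linarith
  have ne3 : pt C x ≠ pt C x' := fun h => by rw [h] at hy; exact lt_irrefl _ hy
  exact p1_three hC hS hUC (pt_mem hC x) (pt_mem hC x') hUi (pt_notMem_interior hC x)
    (pt_notMem_interior hC x') ne1 ne3 ne2 hUt ht.symm

/-- The lower point of a chord. -/
lemma ldf_lo {C : Set ℂ} (hC : Body C) {φ : ℝ} (hS : NoSeg C φ) {x x' : ℝ}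
    (ht : tc φ (pt C x') = tc φ (pt C x)) (hy : yc φ (pt C x) < yc φ (pt C x')) :
    yc φ (pt C x) = lo (grf C φ) (tc φ (pt C x)) := by
  have hcpt := grf_compact hC.cpt φ
  have hlev : tc φ (pt C x) ∈ lev (grf C φ) := ⟨_, grf_mem (pt_mem hC x)⟩
  have h1 : lo (grf C φ) (tc φ (pt C x)) ≤ yc φ (pt C x) := lo_le hcpt (grf_mem (pt_mem hC x))
  by_contra hne
  have h2 : lo (grf C φ) (tc φ (pt C x)) < yc φ (pt C x) := lt_of_le_of_ne h1 (Ne.symm hne)
  set U : ℂ := fr φ (tc φ (pt C x), lo (grf C φ) (tc φ (pt C x))) with hU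
  have hUC : U ∈ C := lo_mem hcpt hlev
  have hUt : tc φ U = tc φ (pt C x) := tc_fr φ _
  have hUy : yc φ U = lo (grf C φ) (tc φ (pt C x)) := xnd_yc_fr φ _
  have hUi : U ∉ interior C := by
    intro hi
    rw [mem_interior_iff_mem_nhds] at hi
    have h3 : Tendsto (fun s : ℝ => U + s * e φ) (𝓝[<] 0) (𝓝 U) := by
      have h4 : Continuous (fun s : ℝ => U + s * e φ) := by fun_prop
      have h5 := h4.tendsto 0
      simp only [Complex.ofReal_zero, zero_mul, add_zero] at h5
      exact h5.mono_left nhdsWithin_le_nhds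
    have h6 : ∀ᶠ s : ℝ in 𝓝[<] 0, U + s * e φ ∈ C := h3.eventually hi
    obtain ⟨s, hs, hs0⟩ := (h6.and self_mem_nhdsWithin).exists
    have h7 := grf_mem (φ := φ) hs
    have h8 : tc φ (U + s * e φ) = tc φ (pt C x) := by
      rw [tc_add, tc_mul, tc_e_self, hUt]; ring
    have h9 : yc φ (U + s * e φ) = lo (grf C φ) (tc φ (pt C x)) + s := by
      rw [yc_add, yc_mul, yc_e_self, hUy]; ring
    rw [h8, h9] at h7
    have h10 := lo_le hcpt h7
    have : (s : ℝ) < 0 := hs0
    linarith
  have ne1 : U ≠ pt C x := fun h => by rw [← hUy, h] at h2; exact lt_irrefl _ h2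
  have ne2 : U ≠ pt C x' := fun h => by rw [← hUy, h] at h2; linarith
  have ne3 : pt C x ≠ pt C x' := fun h => by rw [h] at hy; exact lt_irrefl _ hy
  exact p1_three hC hS hUC (pt_mem hC x) (pt_mem hC x') hUi (pt_notMem_interior hC x)
    (pt_notMem_interior hC x') ne1 ne3 ne2 hUt ht.symm

/-- `rad` is differentiable at `z` if the X-ray is differentiable at the level of `z`. -/
lemma ldf_body {C : Set ℂ} (hC : Body C) {φ z : ℝ} (hS : NoSeg C φ) (hF : IsFlip C φ (fl C φ))
    (hcont : Continuous (fl C φ)) (hz : ¬ Fx (fl C φ) z)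
    (hLv : ∃ κ > 0, Lv C φ κ z)
    (hd : DifferentiableAt ℝ (xr C φ) (tc φ (pt C z))) : DifferentiableAt ℝ (rad C) z := by
  have hcpt := grf_compact hC.cpt φ
  have hcvx := grf_convex hC.conv φ
  obtain ⟨κ, hκ, ⟨w₁, hw₁, h1⟩, ⟨w₂, hw₂, h2⟩⟩ := hLv
  set t₀ := tc φ (pt C z) with ht₀
  have hint : t₀ ∈ interior (lev (grf C φ)) :=
    lev_interior hC.conv hw₁ hw₂ (by linarith) (by linarith)
  have hconc := up_concave hcpt hcvx
  have hconv := (lo_convex hcpt hcvx).neg
  have hsum : DifferentiableAt ℝ (fun t => up (grf C φ) t + (-lo (grf C φ)) t) t₀ := by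
    refine hd.congr_of_eventuallyEq ?_
    filter_upwards [mem_interior_iff_mem_nhds.1 hint] with t ht
    rw [xr_eq_slice, vol_slice hcpt hcvx ht]
    simp only [Pi.neg_apply]
    ring
  obtain ⟨d1, d2⟩ := diff_of_add hconc hconv hint hsum
  have d2' : DifferentiableAt ℝ (lo (grf C φ)) t₀ := by
    have := d2.neg
    rwa [neg_neg] at this
  obtain ⟨L, hL⟩ := pt_lipschitz hC
  have hne : pt C (fl C φ z) ≠ pt C z := by
    intro h
    obtain ⟨n, hn⟩ := B3.pt_eq hC h
    exact hz ⟨n, hn⟩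
  have hyne : yc φ (pt C (fl C φ z)) ≠ yc φ (pt C z) := by
    intro hy
    apply hne
    have := eq_add_of_tc_eq (hF.line z)
    rw [hy, sub_self] at this
    simpa using this
  have c1 : Continuous fun x => yc φ (pt C x) := (continuous_yc φ).comp hL.continuous
  have c2 : Continuous fun x => yc φ (pt C (fl C φ x)) := c1.comp hcont
  -- the origin is an interior point
  have h0 : ∃ ε > 0, ((0 : ℝ), ε) ∈ grf C φ ∧ ((0 : ℝ), -ε) ∈ grf C φ := by
    obtain ⟨r, hr, hb⟩ := Metric.mem_nhds_iff.1 (mem_interior_iff_mem_nhds.1 hC.zero)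
    refine ⟨r / 2, by linarith, hb ?_, hb ?_⟩
    · rw [mem_ball_zero_iff]
      simp only [fr, Complex.ofReal_zero, zero_mul, zero_add, norm_mul, norm_e, mul_one,
        Complex.norm_real, Real.norm_eq_abs]
      rw [abs_of_pos (by linarith)]; linarith
    · rw [mem_ball_zero_iff]
      simp only [fr, Complex.ofReal_zero, zero_mul, zero_add, norm_mul, norm_e, mul_one,
        Complex.norm_real, Real.norm_eq_abs]
      rw [abs_neg, abs_of_pos (by linarith)]; linarith
  obtain ⟨ε, hε, m1, m2⟩ := h0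
  have hlev0 : (0 : ℝ) ∈ lev (grf C φ) := ⟨ε, m1⟩
  have hlevt : t₀ ∈ lev (grf C φ) := interior_subset hint
  rcases lt_or_gt_of_ne hyne with hlt | hgt
  · -- upper point
    have hev : ∀ᶠ x in 𝓝 z, yc φ (pt C x) = up (grf C φ) (tc φ (pt C x)) := by
      filter_upwards [(isOpen_lt c2 c1).mem_nhds hlt] with x hx
      exact ldf_up hC hS (hF.line x) hx
    refine ldf_rad_diff hC φ z _ (up (grf C φ)) d1.hasDerivAt hev ?_
    set a := deriv (up (grf C φ)) t₀
    -- the tangent is a supporting line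
    have hsup : up (grf C φ) 0 ≤ up (grf C φ) t₀ + a * (0 - t₀) := by
      rcases lt_trichotomy (0 : ℝ) t₀ with h | h | h
      · have := hconc.le_slope_of_hasDerivWithinAt_Iio hlev0 hlevt h
          d1.hasDerivAt.hasDerivWithinAt
        rw [slope_def_field, le_div_iff₀ (by linarith)] at this
        linarith
      · rw [← h]; simp
      · have := hconc.slope_le_of_hasDerivWithinAt_Ioi hlevt hlev0 h
          d1.hasDerivAt.hasDerivWithinAt
        rw [slope_def_field, div_le_iff₀ (by linarith)] at this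
        linarith
    have h3 := le_up hcpt m1
    intro h4
    linarith
  · have hev : ∀ᶠ x in 𝓝 z, yc φ (pt C x) = lo (grf C φ) (tc φ (pt C x)) := by
      filter_upwards [(isOpen_lt c1 c2).mem_nhds hgt] with x hx
      exact ldf_lo hC hS (hF.line x) hx
    refine ldf_rad_diff hC φ z _ (lo (grf C φ)) d2'.hasDerivAt hev ?_
    set a := deriv (lo (grf C φ)) t₀
    have hcx := lo_convex hcpt hcvx
    have hsup : lo (grf C φ) t₀ + a * (0 - t₀) ≤ lo (grf C φ) 0 := by
      rcases lt_trichotomy (0 : ℝ) t₀ with h | h | h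
      · have := hcx.slope_le_of_hasDerivWithinAt_Iio hlev0 hlevt h
          d2'.hasDerivAt.hasDerivWithinAt
        rw [slope_def_field, div_le_iff₀ (by linarith)] at this
        linarith
      · rw [← h]; simp
      · have := hcx.le_slope_of_hasDerivWithinAt_Ioi hlevt hlev0 h
          d2'.hasDerivAt.hasDerivWithinAt
        rw [slope_def_field, le_div_iff₀ (by linarith)] at this
        linarith
    have h3 := lo_le hcpt m2
    intro h4
    linarith

theorem t_ldf (hFLX : FLXStmt) (hFLB : FLBStmt) (hWFL : WFLStmt) : LDFStmt := by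
  intro C C' φ z hC hC' hX hS hzE hz hd hacc
  obtain ⟨hW, hSW, hS', w4, w5, w6, w7, w8, w9⟩ := hWFL C C' φ hC hC' hX hS
  have hzW : ¬ Fx (fl (C ∩ C') φ) z := by
    intro h
    obtain ⟨δ, hδ, h1⟩ := w8 z hzE h hz
    rcases hacc with h2 | h2
    · obtain ⟨y, hy, hy1, hy2⟩ := h2 δ hδ
      have := h1 y hy (by rw [abs_lt]; constructor <;> linarith)
      linarith
    · obtain ⟨y, hy, hy1, hy2⟩ := h2 δ hδ
      have := h1 y hy (by rw [abs_lt]; constructor <;> linarith)
      linarith
  obtain ⟨f1, f2⟩ := w5 z hzE hzW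
  have hz' : ¬ Fx (fl C' φ) z := by
    rintro ⟨k, hk⟩
    exact hz ⟨k, by rw [f1, ← f2, hk]⟩
  have hpt : pt C' z = pt C z := by
    have : rad C z = rad C' z := hzE
    simp only [pt, this]
  have hxr : xr C' φ = xr C φ := by
    funext t
    have := hX ((t : ℂ) * (Complex.I * e φ))
    simp only [xr]
    rw [this]
  have r1 := ldf_body hC hS (hFLX C φ hC hS).1 (hFLB C φ hC hS).1 hz
    (((hFLB C φ hC hS).2.2.2.2.1 z).1 hz) hd
  have r2 := ldf_body hC' hS' (hFLX C' φ hC' hS').1 (hFLB C' φ hC' hS').1 hz'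
    (((hFLB C' φ hC' hS').2.2.2.2.1 z).1 hz') (by rw [hpt, hxr]; exact hd)
  set q : ℝ → ℝ := fun x => rad C' x - rad C x with hq
  have hqd : DifferentiableAt ℝ q z := r2.sub r1
  have hq0 : q z = 0 := by
    have : rad C z = rad C' z := hzE
    simp [hq, this]
  have hder := hqd.hasDerivAt
  have hsl := hasDerivAt_iff_tendsto_slope.1 hder
  have hfreq : ∃ᶠ x in 𝓝[≠] z, q x = 0 := by
    rw [frequently_iff]
    intro U hU
    rw [mem_nhdsWithin_iff] at hU
    obtain ⟨δ, hδ, hU⟩ := hU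
    rcases hacc with h2 | h2
    · obtain ⟨y, hy, hy1, hy2⟩ := h2 δ hδ
      refine ⟨y, hU ⟨?_, ?_⟩, ?_⟩
      · rw [mem_ball, Real.dist_eq, abs_lt]; constructor <;> linarith
      · exact hy1.ne'
      · have : rad C y = rad C' y := hy
        simp [hq, this]
    · obtain ⟨y, hy, hy1, hy2⟩ := h2 δ hδ
      refine ⟨y, hU ⟨?_, ?_⟩, ?_⟩
      · rw [mem_ball, Real.dist_eq, abs_lt]; constructor <;> linarith
      · exact hy2.ne
      · have : rad C y = rad C' y := hy
        simp [hq, this]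
  have hzero : deriv q z = 0 := by
    refine tendsto_nhds_unique_of_frequently_eq hsl tendsto_const_nhds ?_
    refine hfreq.mono fun x hx => ?_
    simp [slope_def_field, hx, hq0]
  rw [hzero] at hder
  have h3 := hder.isLittleO
  refine h3.congr_left fun x => ?_
  rw [hq0, smul_zero, sub_zero, sub_zero]

end Pool.XR2
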