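import Pool.Agent.H52.XR2.S2
import Pool.Agent.H61.XR2.LDF
import Pool.Agent.H45.XR.H
import Pool.Agent.H7.XR.A2

/-!
# XR2, row DLT: mates with accumulating equal sections are close to first order
-/

set_option autoImplicit false

open MeasureTheory Set Filter Topology Metric Asymptotics
open scoped Real ENNReal

namespace Pool.XR2

open Pool.Agent.H45.XR Pool.Agent.H61.XR2

namespace D61

/-- The slice of `K` over the line `tc φ = x`, heights as first coordinate. -/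
def dlS (K : Set (ℂ × ℝ)) (φ x : ℝ) : Set (ℝ × ℝ) := {p | (fr φ (x, p.2), p.1) ∈ K}

lemma dlS_compact {K : Set (ℂ × ℝ)} (hK : IsCompact K) (φ x : ℝ) : IsCompact (dlS K φ x) := by
  have h1 : dlS K φ x = (fun p : ℂ × ℝ => (p.2, yc φ p.1)) ''
      (K ∩ (fun p : ℂ × ℝ => tc φ p.1) ⁻¹' {x}) := by
    ext ⟨h, s⟩
    constructor
    · intro hp
      refine ⟨(fr φ (x, s), h), ⟨hp, ?_⟩, ?_⟩
      · simp [tc_fr]
      · simp [xnd_yc_fr]
    · rintro ⟨⟨z, h'⟩, ⟨hz, hx⟩, he⟩
      have hx' : tc φ z = x := hx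
      simp only [Prod.mk.injEq] at he
      obtain ⟨rfl, rfl⟩ := he
      change (fr φ (x, yc φ z), h') ∈ K
      rw [← hx', xnd_fr_tc]
      exact hz
  rw [h1]
  refine (hK.inter_right (isClosed_singleton.preimage ?_)).image ?_
  · exact (continuous_tc φ).comp continuous_fst
  · exact continuous_snd.prodMk ((continuous_yc φ).comp continuous_fst)

lemma dlS_convex {K : Set (ℂ × ℝ)} (hK : Convex ℝ K) (φ x : ℝ) : Convex ℝ (dlS K φ x) := by
  intro p hp q hq a b ha hb hab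
  have h := hK hp hq ha hb hab
  have h2 : (fr φ (x, (a • p + b • q).2), (a • p + b • q).1) =
      a • (fr φ (x, p.2), p.1) + b • (fr φ (x, q.2), q.1) := by
    ext1
    · simp only [fr, Prod.snd_add, Prod.fst_add, Prod.smul_snd, Prod.smul_fst, smul_eq_mul,
        Complex.ofReal_add, Complex.ofReal_mul, Complex.real_smul]
      have hab' : (a : ℂ) + b = 1 := by exact_mod_cast hab
      linear_combination (-(x : ℂ) * (Complex.I * e φ)) * hab'
    · simp
  change (fr φ (x, (a • p + b • q).2), (a • p + b • q).1) ∈ K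
  rw [h2]
  exact h

lemma xr_dlS (K : Set (ℂ × ℝ)) (φ x h : ℝ) :
    xr (sec K h) φ x = (volume (slice (dlS K φ x) h)).toReal := rfl

/-- The heights whose section meets the line in the interior form an open set. -/
lemma isOpen_Inl (K : Set (ℂ × ℝ)) (φ x : ℝ) : IsOpen {h : ℝ | Inl K φ x h} := by
  have : {h : ℝ | Inl K φ x h} = ⋃ s : ℝ, (fun h : ℝ => (fr φ (x, s), h)) ⁻¹' interior K := by
    ext h
    simp only [mem_ofPred_eq, mem_iUnion, mem_preimage, Inl]
    constructor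
    · rintro ⟨z, hz, hzx⟩
      refine ⟨yc φ z, ?_⟩
      rw [← hzx, xnd_fr_tc]
      exact hz
    · rintro ⟨s, hs⟩
      exact ⟨_, hs, tc_fr φ _⟩
  rw [this]
  exact isOpen_iUnion fun s => isOpen_interior.preimage (by fun_prop)

lemma inl_vol {K : Set (ℂ × ℝ)} {φ x h : ℝ} (hi : Inl K φ x h) :
    0 < volume (slice (dlS K φ x) h) := by
  obtain ⟨z, hz, hzx⟩ := hi
  have ho : IsOpen {s : ℝ | (fr φ (x, s), h) ∈ interior K} := by
    refine isOpen_interior.preimage ?_
    simp only [fr]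
    fun_prop
  have hne : {s : ℝ | (fr φ (x, s), h) ∈ interior K}.Nonempty := by
    refine ⟨yc φ z, ?_⟩
    change (fr φ (x, yc φ z), h) ∈ interior K
    rw [← hzx, xnd_fr_tc]
    exact hz
  refine lt_of_lt_of_le (ho.measure_pos volume hne) (measure_mono ?_)
  intro s hs
  exact interior_subset (s := K) hs

/-- The topmost point on a line is not interior. -/
lemma top_notMem_interior {C : Set ℂ} (hC : IsCompact C) (φ t : ℝ) :
    fr φ (t, up (grf C φ) t) ∉ interior C := by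
  intro hi
  have hcpt := grf_compact hC φ
  set U := fr φ (t, up (grf C φ) t) with hU
  have hUt : tc φ U = t := tc_fr φ _
  have hUy : yc φ U = up (grf C φ) t := xnd_yc_fr φ _
  rw [mem_interior_iff_mem_nhds] at hi
  have h3 : Tendsto (fun s : ℝ => U + s * e φ) (𝓝[>] 0) (𝓝 U) := by
    have h4 : Continuous (fun s : ℝ => U + s * e φ) := by fun_prop
    have h5 := h4.tendsto 0
    simp only [Complex.ofReal_zero, zero_mul, add_zero] at h5
    exact h5.mono_left nhdsWithin_le_nhds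
  have h6 : ∀ᶠ s : ℝ in 𝓝[>] 0, U + s * e φ ∈ C := h3.eventually hi
  obtain ⟨s, hs, hs0⟩ := (h6.and self_mem_nhdsWithin).exists
  have h7 := grf_mem (φ := φ) hs
  have h8 : tc φ (U + s * e φ) = t := by
    rw [tc_add, tc_mul, tc_e_self, hUt]; ring
  have h9 : yc φ (U + s * e φ) = up (grf C φ) t + s := by
    rw [yc_add, yc_mul, yc_e_self, hUy]; ring
  rw [h8, h9] at h7
  have h10 := le_up hcpt h7
  have : (0 : ℝ) < s := hs0
  linarith

/-- The upper end in the coordinates of the section and in those of the centred section. -/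
lemma up_Cq {K : Set (ℂ × ℝ)} (hK : Body3 K) {φ x h : ℝ} (hl : h ∈ lev (dlS K φ x)) :
    x - tc φ (cen (sec K h)) ∈ lev (grf (Cq K h) φ) ∧
    up (grf (Cq K h) φ) (x - tc φ (cen (sec K h))) =
      up (dlS K φ x) h - yc φ (cen (sec K h)) := by
  set c := cen (sec K h) with hc
  have key : ∀ y : ℝ, (x - tc φ c, y) ∈ grf (Cq K h) φ ↔ (h, y + yc φ c) ∈ dlS K φ x := by
    intro y
    have h1 : fr φ (x - tc φ c, y) + c = fr φ (x, y + yc φ c) := by
      have := xnd_fr_tc φ c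
      conv_lhs => rw [← this]
      simp only [fr, Complex.ofReal_sub, Complex.ofReal_add, tc_fr, xnd_yc_fr]
      have h2 : tc φ ((tc φ c : ℂ) * (Complex.I * e φ) + (yc φ c : ℂ) * e φ) = tc φ c :=
        tc_fr φ (tc φ c, yc φ c)
      rw [h2]
      ring
    change fr φ (x - tc φ c, y) ∈ tr (sec K h) c ↔ _
    rw [mem_tr, h1]
    rfl
  have hcS := dlS_compact hK.cpt φ x
  have hcC : IsCompact (grf (Cq K h) φ) := grf_compact (compact_tr (sec_compact hK h) _) φ
  have hl' : x - tc φ c ∈ lev (grf (Cq K h) φ) := by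
    obtain ⟨s, hs⟩ := hl
    refine ⟨s - yc φ c, (key _).2 ?_⟩
    rw [sub_add_cancel]
    exact hs
  refine ⟨hl', le_antisymm ?_ ?_⟩
  · have := le_up hcS ((key _).1 (up_mem hcC hl'))
    linarith
  · refine le_up hcC ((key _).2 ?_)
    rw [sub_add_cancel]
    exact up_mem hcS hl

/-- Comparison of the radial functions. -/
lemma rad_diff_le {C C' : Set ℂ} (hC : Body C) (hC' : Body C') {φ α δ r R : ℝ} (hr : 0 < r)
    (hrR : ∀ θ, r ≤ rad C' θ ∧ rad C' θ ≤ R) (h1 : gauge C' (pt C α + δ * e φ) = 1) :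
    |rad C' α - rad C α| ≤ R / r * |δ| := by
  have hg : ∀ s θ : ℝ, 0 ≤ s → gauge C' (s * e θ) = s / rad C' θ := by
    intro s θ hs
    rw [← Complex.real_smul, gauge_smul_of_nonneg hs]
    simp only [rad, smul_eq_mul, div_inv_eq_mul]
  have hge : ∀ s θ : ℝ, gauge C' (s * e θ) ≤ |s| / r := by
    intro s θ
    rcases le_total 0 s with h | h
    · rw [hg s θ h, abs_of_nonneg h]
      exact div_le_div_of_nonneg_left h hr (hrR θ).1
    · have h2 : (s : ℂ) * e θ = ((-s : ℝ) : ℂ) * e (θ + π) := by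
        rw [e_add_pi]; push_cast; ring
      rw [h2, hg _ _ (by linarith), abs_of_nonpos h]
      exact div_le_div_of_nonneg_left (by linarith) hr (hrR _).1
  have hsub : ∀ z w : ℂ, gauge C' (z + w) ≤ gauge C' z + gauge C' w := fun z w =>
    gauge_add_le hC'.conv (absorbent_nhds_zero (mem_interior_iff_mem_nhds.1 hC'.zero)) z w
  have hpt : gauge C' (pt C α) = rad C α / rad C' α := hg _ _ (rad_pos hC α).le
  have h2 : (1 : ℝ) ≤ rad C α / rad C' α + |δ| / r := by
    rw [← h1, ← hpt]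
    exact (hsub _ _).trans (by gcongr; exact hge _ _)
  have h3 : rad C α / rad C' α ≤ 1 + |δ| / r := by
    have h4 : pt C α = (pt C α + δ * e φ) + ((-δ : ℝ) : ℂ) * e φ := by push_cast; ring
    rw [← hpt, h4]
    refine (hsub _ _).trans ?_
    rw [h1]
    have := hge (-δ) φ
    rw [abs_neg] at this
    linarith
  have hp := rad_pos hC' α
  have h5 : |1 - rad C α / rad C' α| ≤ |δ| / r := by
    rw [abs_le]; constructor <;> linarith
  have h6 : rad C' α - rad C α = rad C' α * (1 - rad C α / rad C' α) := by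
    field_simp
  rw [h6, abs_mul, abs_of_pos hp]
  calc rad C' α * |1 - rad C α / rad C' α| ≤ R * (|δ| / r) :=
        mul_le_mul (hrR α).2 h5 (abs_nonneg _) (hp.le.trans (hrR α).2)
    _ = R / r * |δ| := by ring

/-- Uniform bounds for the radial functions of the sections near a height. -/
lemma rad_bounds_near (csc : CSCStmt) (sgb : SGBStmt) {K : Set (ℂ × ℝ)} (hK : Body3 K) {y : ℝ}
    (hy : y ∈ Hts K) : ∃ r R : ℝ, 0 < r ∧ ∀ᶠ h in 𝓝 y, ∀ θ, r ≤ rad (Cq K h) θ ∧
      rad (Cq K h) θ ≤ R := by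
  obtain ⟨r, hr, hr'⟩ := A2.rad_ge (body_Cq hK hy)
  obtain ⟨R, hR, hR'⟩ := rad_le (body_Cq hK hy)
  refine ⟨r / 2, R + 1, by linarith, ?_⟩
  by_contra hne
  have hne' : ∃ᶠ h in 𝓝 y, ¬ ∀ θ, r / 2 ≤ rad (Cq K h) θ ∧ rad (Cq K h) θ ≤ R + 1 := by
    intro h
    apply hne
    filter_upwards [h] with h hh
    exact not_not.1 hh
  obtain ⟨u, hu, hu'⟩ := exists_seq_forall_of_frequently hne'
  have hsg := (sgb K hK).2.1
  have h1 := (csc K (fun _ => 0) 0 u y hK tendsto_const_nhds hu (by rw [hsg]; exact hy)).2.1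
  rw [hsg] at h1
  have h2 := (Metric.tendstoUniformly_iff.1 h1) (min (r / 2) 1) (lt_min (by linarith) one_pos)
  obtain ⟨n, hn⟩ := h2.exists
  apply hu' n
  intro θ
  have h3 := hn θ
  rw [Real.dist_eq] at h3
  have h4 := lt_of_lt_of_le h3 (min_le_left _ _)
  have h5 := lt_of_lt_of_le h3 (min_le_right _ _)
  rw [abs_lt] at h4 h5
  have := hr' θ
  have := hR' θ
  constructor <;> linarith

/-- A function differentiable at `y` which vanishes at points accumulating at `y` is `o(h - y)`. -/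
lemma o_of_acc {δ : ℝ → ℝ} {y : ℝ} {Z : Set ℝ} (hd : DifferentiableAt ℝ δ y) (h0 : δ y = 0)
    (hZ : ∀ h ∈ Z, δ h = 0) (ha : AccR Z y ∨ AccL Z y) : δ =o[𝓝 y] (fun h => h - y) := by
  have hD := hd.hasDerivAt
  have hfr : ∃ᶠ h in 𝓝[≠] y, h ∈ Z := by
    rw [Filter.frequently_iff]
    intro U hU
    rw [mem_nhdsWithin] at hU
    obtain ⟨O, hO, hyO, hOU⟩ := hU
    obtain ⟨ε, hε, hb⟩ := Metric.isOpen_iff.1 hO y hyO
    rcases ha with ha | ha
    · obtain ⟨h, hhZ, h1, h2⟩ := ha ε hε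
      refine ⟨h, hOU ⟨hb ?_, ?_⟩, hhZ⟩
      · rw [mem_ball, Real.dist_eq, abs_of_pos (by linarith)]; linarith
      · exact h1.ne'
    · obtain ⟨h, hhZ, h1, h2⟩ := ha ε hε
      refine ⟨h, hOU ⟨hb ?_, ?_⟩, hhZ⟩
      · rw [mem_ball, Real.dist_eq, abs_of_neg (by linarith)]; linarith
      · exact h2.ne
  have hzero : deriv δ y = 0 := by
    by_contra hne
    have h1 := (hasDerivAt_iff_tendsto_slope.1 hD).eventually_ne hne
    obtain ⟨h, hhZ, hh⟩ := (hfr.and_eventually h1).exists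
    apply hh
    rw [slope_def_field, hZ h hhZ, h0]
    simp
  rw [hzero] at hD
  have h2 := hD.isLittleO
  refine h2.congr_left fun h => ?_
  rw [h0]; simp

end D61

open D61 in
theorem t_dlt (flx : FLXStmt) (csc : CSCStmt) (pmh : PMHStmt) (tpa : TPAStmt)
    (sgb : SGBStmt) : DLTStmt := by
  intro K K' φ₀ φ₁ x y hK hM h01 h10 n0 n1 hyZ hacc hin hd
  have hK' := hM.body
  obtain ⟨hHts, hP⟩ := pmh K K' φ₀ φ₁ hK hM h01 h10 n0 n1
  set S := dlS K φ₀ x with hS
  set S' := dlS K' φ₀ x with hS'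
  have cS := dlS_compact hK.cpt φ₀ x
  have cS' := dlS_compact hK'.cpt φ₀ x
  have vS := dlS_convex hK.conv φ₀ x
  have vS' := dlS_convex hK'.conv φ₀ x
  have hX : ∀ h, volume (slice S' h) = volume (slice S h) := fun h =>
    (hM.x0 h ((x : ℂ) * (Complex.I * e φ₀))).symm
  have hU : ∀ᶠ h in 𝓝 y, Inl K φ₀ x h := (isOpen_Inl K φ₀ x).mem_nhds hin
  have hl : ∀ h, Inl K φ₀ x h → h ∈ lev S := fun h hh => nonempty_of_measure_ne_zero (inl_vol hh).ne'
  have hl' : ∀ h, Inl K φ₀ x h → h ∈ lev S' := fun h hh =>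
    nonempty_of_measure_ne_zero (by rw [hX]; exact (inl_vol hh).ne')
  have hi : y ∈ interior (lev S) := mem_interior_iff_mem_nhds.2 (hU.mono hl)
  have hi' : y ∈ interior (lev S') := mem_interior_iff_mem_nhds.2 (hU.mono hl')
  -- differentiability of the upper ends
  have d1 : DifferentiableAt ℝ (up S) y := by
    refine (diff_of_add (up_concave cS vS) (lo_convex cS vS).neg hi ?_).1
    refine hd.congr_of_eventuallyEq ?_
    filter_upwards [hU] with h hh
    rw [xr_dlS, vol_slice cS vS (hl h hh)]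
    simp only [Pi.neg_apply]
    ring
  have d1' : DifferentiableAt ℝ (up S') y := by
    refine (diff_of_add (up_concave cS' vS') (lo_convex cS' vS').neg hi' ?_).1
    refine hd.congr_of_eventuallyEq ?_
    filter_upwards [hU] with h hh
    rw [xr_dlS, ← hX, vol_slice cS' vS' (hl' h hh)]
    simp only [Pi.neg_apply]
    ring
  -- equal sections
  have hsecZ : ∀ h ∈ ZZ K K', sec K' h = sec K h := by
    rintro h ⟨hh, he⟩
    have hc := (hP h hh).1
    ext z
    have h1 : z - cen (sec K h) ∈ Cq K' h ↔ z - cen (sec K h) ∈ Cq K h := by rw [he]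
    simp only [Cq, mem_tr, hc, sub_add_cancel] at h1
    exact h1
  have hZ0 : ∀ h ∈ ZZ K K', up S' h - up S h = 0 := by
    intro h hh
    have h1 : slice S' h = slice S h := by
      ext s
      have h2 := hsecZ h hh
      change fr φ₀ (x, s) ∈ sec K' h ↔ fr φ₀ (x, s) ∈ sec K h
      rw [h2]
    simp only [up, h1, sub_self]
  have hlo := o_of_acc (d1'.sub d1) (hZ0 y hyZ) hZ0 hacc
  refine IsBigO.trans_isLittleO ?_ hlo
  obtain ⟨r, R, hr, hb⟩ := rad_bounds_near csc sgb hK' (by rw [hHts]; exact hyZ.1)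
  have hHo : ∀ᶠ h in 𝓝 y, h ∈ Hts K := hU.mono fun h ⟨z, hz, _⟩ => ⟨z, hz⟩
  refine IsBigO.of_bound (R / r) ?_
  filter_upwards [hb, hU, hHo] with h hbh hUh hHh
  obtain ⟨hcen, hpm, -⟩ := hP h hHh
  rw [Real.norm_eq_abs, Real.norm_eq_abs]
  refine rad_diff_le (φ := φ₀) hpm.b hpm.b' hr hbh ?_
  obtain ⟨z, hz, hzx⟩ := id hUh
  have hint : ∃ w ∈ interior (Cq K h), tc φ₀ w = x - tc φ₀ (cen (sec K h)) := by
    refine ⟨z - cen (sec K h), ?_, by rw [tc_sub, hzx]⟩
    rw [Cq, interior_tr, mem_tr, sub_add_cancel, interior_sec hK ⟨z, hz⟩]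
    exact hz
  obtain ⟨p1, p2, p3, -⟩ := tpa (Cq K h) φ₀ (x - tc φ₀ (cen (sec K h))) hpm.b hpm.n0 hint
  have hF := (flx (Cq K h) φ₀ hpm.b hpm.n0).1
  have hα : ta K φ₀ x h = tpA (Cq K h) φ₀ (x - tc φ₀ (cen (sec K h))) := rfl
  set α := tpA (Cq K h) φ₀ (x - tc φ₀ (cen (sec K h))) with hαd
  rw [hα]
  have hPhi := (hF.phi (fl (Cq K h) φ₀ α) α p1 p2).1 (hF.inv α)
  obtain ⟨s, hs, hsp⟩ := Phi_spec hpm.b p1 p2
  rw [hPhi] at hsp
  have hyy : yc φ₀ (pt (Cq K h) (fl (Cq K h) φ₀ α)) < yc φ₀ (pt (Cq K h) α) := by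
    rw [hsp, yc_add, yc_mul, yc_e_self]; linarith
  have hup := ldf_up hpm.b hpm.n0 (hF.line α) hyy
  rw [p3] at hup
  obtain ⟨m1, m2⟩ := up_Cq hK (hl h hUh)
  obtain ⟨m1', m2'⟩ := up_Cq hK' (hl' h hUh)
  rw [hcen] at m1' m2'
  have hz' : pt (Cq K h) α + ((up S' h - up S h : ℝ) : ℂ) * e φ₀ =
      fr φ₀ (x - tc φ₀ (cen (sec K h)),
        up (grf (Cq K' h) φ₀) (x - tc φ₀ (cen (sec K h)))) := by
    rw [m2']
    have h1 := xnd_fr_tc φ₀ (pt (Cq K h) α)
    rw [← h1, p3, hup, m2]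
    simp only [fr]
    push_cast
    ring
  change gauge (Cq K' h) (pt (Cq K h) α + ((up S' h - up S h : ℝ) : ℂ) * e φ₀) = 1
  rw [hz', gauge_eq_one_iff_mem_frontier hpm.b'.conv (mem_interior_iff_mem_nhds.1 hpm.b'.zero)]
  refine ⟨subset_closure (up_mem (grf_compact hpm.b'.cpt φ₀) m1'), ?_⟩
  exact top_notMem_interior hpm.b'.cpt φ₀ _

end Pool.XR2
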