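import Pool.Agent.H52.XR2.S1

/-!
# XR2, row FLN: flat closed chains occur only for a null set of directions
-/

set_option autoImplicit false

open MeasureTheory Set Filter Topology Metric Asymptotics
open scoped Real ENNReal

namespace Pool.XR2

open Pool.Agent.H45.XR

/-- The even and odd members of the chain. -/
lemma fln_orbC (C : Set ℂ) (φ₀ φ₁ x : ℝ) (m : ℕ) :
    orbC C φ₀ φ₁ x (2 * m) = (TT C φ₀ φ₁)^[m] x ∧
    orbC C φ₀ φ₁ x (2 * m + 1) = fl C φ₀ ((TT C φ₀ φ₁)^[m] x) := by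
  have step : ∀ m, orbC C φ₀ φ₁ x (2 * m) = (TT C φ₀ φ₁)^[m] x →
      orbC C φ₀ φ₁ x (2 * m + 1) = fl C φ₀ ((TT C φ₀ φ₁)^[m] x) := by
    intro m hm
    have h : orbC C φ₀ φ₁ x (2 * m + 1) = fl C φ₀ (orbC C φ₀ φ₁ x (2 * m)) := by
      simp only [orbC, orb]
      rw [if_pos (even_two_mul m)]
    rw [h, hm]
  induction m with
  | zero => exact ⟨rfl, step 0 rfl⟩
  | succ m ih =>
    have h1 : orbC C φ₀ φ₁ x (2 * (m + 1)) = (TT C φ₀ φ₁)^[m + 1] x := by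
      have h2 : orbC C φ₀ φ₁ x (2 * (m + 1)) = fl C φ₁ (orbC C φ₀ φ₁ x (2 * m + 1)) := by
        have h3 : 2 * (m + 1) = (2 * m + 1) + 1 := by ring
        rw [h3]
        simp only [orbC]
        rw [orb]
        rw [if_neg (by simp)]
      rw [h2, ih.2, Function.iterate_succ_apply']
      rfl
    exact ⟨h1, step (m + 1) h1⟩

/-- Comparison of the last flips. -/
lemma fln_dsp_compare (hFLX : FLXStmt) (hFLB : FLBStmt) (hMNF : MNFStmt) (C : Set ℂ)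
    (φ₀ α β c κ y : ℝ) (p : ℤ) (q : ℕ) (hC : Body C) (h0 : NoSeg C φ₀) (hα : NoSeg C α)
    (hβ : NoSeg C β) (hq : 0 < q) (hg : Gd C φ₀ β q κ y) (hcl : dsp C φ₀ β p q y = 0)
    (hD : ∀ w, Lv C β κ w → (α ≤ β → c * (β - α) ≤ fl C β w - fl C α w) ∧
      (β ≤ α → c * (α - β) ≤ fl C α w - fl C β w)) :
    c * |β - α| ≤ |dsp C φ₀ α p q y| := by
  obtain ⟨m, rfl⟩ : ∃ m, q = m + 1 := ⟨q - 1, by omega⟩
  have hTα := ((hFLB C φ₀ hC h0).2.2.2.2.2 α hα).1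
  have hTβ := ((hFLB C φ₀ hC h0).2.2.2.2.2 β hβ).1
  set Ta := TT C φ₀ α with hTa
  set Tb := TT C φ₀ β with hTb
  set w := fl C φ₀ (Tb^[m] y) with hw
  have hlv : Lv C β κ w := by
    have h1 := hg (2 * m + 1) (by omega)
    rw [if_neg (by simp)] at h1
    rwa [(fln_orbC C φ₀ β y m).2] at h1
  have e1 : Tb^[m + 1] y = fl C β w := by
    rw [Function.iterate_succ_apply']
    rfl
  have e2 : Ta^[m + 1] y = fl C α (fl C φ₀ (Ta^[m] y)) := by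
    rw [Function.iterate_succ_apply']
    rfl
  have e3 : dsp C φ₀ α p (m + 1) y = Ta^[m + 1] y - Tb^[m + 1] y := by
    have : dsp C φ₀ α p (m + 1) y - dsp C φ₀ β p (m + 1) y = Ta^[m + 1] y - Tb^[m + 1] y := by
      simp only [dsp, ← hTa, ← hTb]; ring
    rw [hcl, sub_zero] at this
    exact this
  have a0 := (hFLX C φ₀ hC h0).1.anti
  have aα := (hFLX C α hC hα).1.anti
  rcases le_total α β with h | h
  · have h1 := (hD w hlv).1 h
    have hle : Ta ≤ Tb := by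
      intro x
      rcases h.eq_or_lt with h' | h'
      · rw [hTa, hTb, h']
      · exact (hMNF C α β _ hC hα hβ h').1
    have h2 : Ta^[m] y ≤ Tb^[m] y := (hTα.mono.monotone.iterate_le_of_le hle m) y
    have h3 : w ≤ fl C φ₀ (Ta^[m] y) := a0.antitone h2
    have h4 : fl C α (fl C φ₀ (Ta^[m] y)) ≤ fl C α w := aα.antitone h3
    rw [e3, e1, e2, abs_of_nonneg (by linarith : (0 : ℝ) ≤ β - α)]
    refine h1.trans ?_
    rw [abs_sub_comm]
    exact (by linarith : fl C β w - fl C α w ≤ fl C β w - fl C α (fl C φ₀ (Ta^[m] y))).trans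
      (le_abs_self _)
  · have h1 := (hD w hlv).2 h
    have hle : Tb ≤ Ta := by
      intro x
      rcases h.eq_or_lt with h' | h'
      · rw [hTa, hTb, h']
      · exact (hMNF C β α _ hC hβ hα h').1
    have h2 : Tb^[m] y ≤ Ta^[m] y := (hTβ.mono.monotone.iterate_le_of_le hle m) y
    have h3 : fl C φ₀ (Ta^[m] y) ≤ w := a0.antitone h2
    have h4 : fl C α w ≤ fl C α (fl C φ₀ (Ta^[m] y)) := aα.antitone h3
    rw [e3, e1, e2, abs_of_nonpos (by linarith : β - α ≤ 0)]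
    have h5 : -(β - α) = α - β := by ring
    rw [h5]
    refine h1.trans ?_
    exact (by linarith : fl C α w - fl C β w ≤ fl C α (fl C φ₀ (Ta^[m] y)) - fl C β w).trans
      (le_abs_self _)

lemma fln_exists_Bd {C : Set ℂ} (hC : Body C) : ∃ r R : ℝ, 0 < r ∧ Bd r R C := by
  obtain ⟨r, hr, h⟩ := Metric.mem_nhds_iff.1 (mem_interior_iff_mem_nhds.1 hC.zero)
  obtain ⟨R, hR⟩ := hC.cpt.isBounded.subset_closedBall (0 : ℂ)
  exact ⟨r, R, hr, hC, h, hR⟩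

lemma fln_Gd_mono {C : Set ℂ} {φ₀ φ₁ κ κ' x : ℝ} {q : ℕ} (h : Gd C φ₀ φ₁ q κ x) (hk : κ' ≤ κ) :
    Gd C φ₀ φ₁ q κ' x := by
  intro n hn
  obtain ⟨⟨z, hz, h1⟩, ⟨z', hz', h2⟩⟩ := h n hn
  exact ⟨⟨z, hz, by linarith⟩, ⟨z', hz', by linarith⟩⟩

open Classical in
theorem t_fln (hFLX : FLXStmt) (hFLB : FLBStmt) (hMNF : MNFStmt) (hDIR : DIRStmt)
    (hCN1 : CN1Stmt) (hNLM : NLMStmt) : FLNStmt := by
  intro C φ₀ hC h0
  obtain ⟨r, R, hr, hBd⟩ := fln_exists_Bd hC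
  -- the directions belonging to `z`
  let P : ℤ → ℕ → ℕ → ℝ → ℝ → Prop := fun p q k z φ₁ =>
    φ₀ < φ₁ ∧ φ₁ < φ₀ + π ∧ NoSeg C φ₁ ∧ FlatR C φ₀ φ₁ p q z ∧
      Gd C φ₀ φ₁ q (1 / ((k : ℝ) + 1)) z
  let f : ℤ → ℕ → ℕ → ℝ → ℝ := fun p q k z => if h : ∃ φ₁, P p q k z φ₁ then h.choose else 0
  let A : ℤ → ℕ → ℕ → Set ℝ := fun p q k => {z | ∃ φ₁, P p q k z φ₁}
  have hf : ∀ p q k z, z ∈ A p q k → P p q k z (f p q k z) := by
    intro p q k z hz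
    have hz' : ∃ φ₁, P p q k z φ₁ := hz
    simp only [f]
    rw [dif_pos hz']
    exact hz'.choose_spec
  have hnull : ∀ p q k, volume (f p q k '' A p q k) = 0 := by
    intro p q k
    apply hNLM
    intro x hx ε hε
    have hκ : (0 : ℝ) < 1 / ((k : ℝ) + 1) := by positivity
    obtain ⟨c, hc, hD⟩ := hDIR r R (1 / ((k : ℝ) + 1)) hr hκ
    have hPx := hf p q k x hx
    have h1 := hPx.2.2.2.1.flt.def (mul_pos hc hε)
    rw [eventually_nhdsWithin_iff, Metric.eventually_nhds_iff] at h1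
    obtain ⟨δ, hδ, h1⟩ := h1
    refine ⟨δ, hδ, fun y hy hxy hyδ => ?_⟩
    have hPy := hf p q k y hy
    have h2 := h1 (y := y) (by rw [Real.dist_eq, abs_of_pos (by linarith)]; linarith) hxy
    rw [Real.norm_eq_abs, Real.norm_eq_abs, abs_of_pos (by linarith : (0 : ℝ) < y - x)] at h2
    set α := f p q k x
    set β := f p q k y
    have h3 := fln_dsp_compare hFLX hFLB hMNF C φ₀ α β c (1 / ((k : ℝ) + 1)) y p q hC h0
      hPx.2.2.1 hPy.2.2.1 hPy.2.2.2.1.q0 hPy.2.2.2.2 hPy.2.2.2.1.cl (fun w hw =>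
        ⟨fun h => hD C α β w hBd hPx.2.2.1 hPy.2.2.1 h (by linarith [hPx.1, hPy.2.1]) (Or.inr hw),
         fun h => hD C β α w hBd hPy.2.2.1 hPx.2.2.1 h (by linarith [hPy.1, hPx.2.1])
          (Or.inl hw)⟩)
    have h4 : c * |β - α| ≤ c * (ε * (y - x)) := by
      calc c * |β - α| ≤ |dsp C φ₀ α p q y| := h3
        _ ≤ c * ε * (y - x) := h2
        _ = c * (ε * (y - x)) := by ring
    exact le_of_mul_le_mul_left h4 hc
  refine measure_mono_null ?_ (measure_iUnion_null fun p : ℤ => measure_iUnion_null fun q : ℕ =>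
    measure_iUnion_null fun k : ℕ => hnull p q k)
  rintro φ₁ ⟨h1, h2, h3, p, q, z, hfl⟩
  obtain ⟨κ, hκ, hg⟩ := hfl.gd
  obtain ⟨k, hk⟩ := exists_nat_one_div_lt hκ
  simp only [mem_iUnion]
  refine ⟨p, q, k, z, ⟨φ₁, h1, h2, h3, hfl, fln_Gd_mono hg hk.le⟩, ?_⟩
  have hP := hf p q k z ⟨φ₁, h1, h2, h3, hfl, fln_Gd_mono hg hk.le⟩
  have hκ' : (0 : ℝ) < 1 / ((k : ℝ) + 1) := by positivity
  exact hCN1 C φ₀ z p q hC h0 hfl.q0
    ⟨hP.1, hP.2.1, hP.2.2.1, ⟨_, hκ', hP.2.2.2.2⟩, hP.2.2.2.1.cl⟩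
    ⟨h1, h2, h3, ⟨κ, hκ, hg⟩, hfl.cl⟩

end Pool.XR2
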