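import Pool.Agent.H52.XR2.S2
import Pool.Agent.H61.XR2.FLN

/-!
# XR2, row NLH: flat closed chains in the direction of the heights occur for a null set of directions
-/

set_option autoImplicit false

open MeasureTheory Set Filter Topology Metric Asymptotics
open scoped Real ENNReal

namespace Pool.XR2

open Pool.Agent.H45.XR

open Classical in
theorem t_nlh (hFLX : FLXStmt) (hFLB : FLBStmt) (hMNF : MNFStmt) (hDIR : DIRStmt)
    (hCN1 : CN1Stmt) (hNLM : NLMStmt) : NLHStmt := by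
  intro K φ₀ x p q hK h0
  -- the directions belonging to `y`
  let P : ℕ → ℝ → ℝ → Prop := fun k y φ₁ =>
    φ₀ < φ₁ ∧ φ₁ < φ₀ + π ∧ NSH K φ₁ ∧ FlatH K φ₀ φ₁ p q x y ∧
      Gd (Cq K y) φ₀ φ₁ q (1 / ((k : ℝ) + 1)) (ta K φ₀ x y) ∧
      Bd (1 / ((k : ℝ) + 1)) k (Cq K y)
  let f : ℕ → ℝ → ℝ := fun k y => if h : ∃ φ₁, P k y φ₁ then h.choose else 0
  let A : ℕ → Set ℝ := fun k => {y | ∃ φ₁, P k y φ₁}
  have hf : ∀ k y, y ∈ A k → P k y (f k y) := by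
    intro k y hy
    have hy' : ∃ φ₁, P k y φ₁ := hy
    simp only [f]
    rw [dif_pos hy']
    exact hy'.choose_spec
  have hnull : ∀ k, volume (f k '' A k) = 0 := by
    intro k
    apply hNLM
    intro y hy ε hε
    have hκ : (0 : ℝ) < 1 / ((k : ℝ) + 1) := by positivity
    obtain ⟨c, hc, hD⟩ := hDIR (1 / ((k : ℝ) + 1)) k (1 / ((k : ℝ) + 1)) hκ hκ
    have hPy := hf k y hy
    have h1 := hPy.2.2.2.1.flt.def (mul_pos hc hε)
    rw [eventually_nhdsWithin_iff, Metric.eventually_nhds_iff] at h1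
    obtain ⟨δ, hδ, h1⟩ := h1
    refine ⟨δ, hδ, fun y' hy' hyy hyδ => ?_⟩
    have hPy' := hf k y' hy'
    have h2 := h1 (y := y') (by rw [Real.dist_eq, abs_of_pos (by linarith)]; linarith) hyy
    rw [Real.norm_eq_abs, Real.norm_eq_abs, abs_of_pos (by linarith : (0 : ℝ) < y' - y)] at h2
    set α := f k y
    set β := f k y'
    have hh : y' ∈ Hts K := hPy'.2.2.2.1.hy
    have hBd : Bd (1 / ((k : ℝ) + 1)) k (Cq K y') := hPy'.2.2.2.2.2
    have nα : NoSeg (Cq K y') α := hPy.2.2.1 y' hh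
    have nβ : NoSeg (Cq K y') β := hPy'.2.2.1 y' hh
    have h3 := fln_dsp_compare hFLX hFLB hMNF (Cq K y') φ₀ α β c (1 / ((k : ℝ) + 1))
      (ta K φ₀ x y') p q hBd.body (h0 y' hh) nα nβ hPy'.2.2.2.1.q0 hPy'.2.2.2.2.1
      hPy'.2.2.2.1.cl (fun w hw =>
        ⟨fun h => hD _ α β w hBd nα nβ h (by linarith [hPy.1, hPy'.2.1]) (Or.inr hw),
         fun h => hD _ β α w hBd nβ nα h (by linarith [hPy'.1, hPy.2.1]) (Or.inl hw)⟩)
    have h4 : c * |β - α| ≤ c * (ε * (y' - y)) := by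
      calc c * |β - α| ≤ |dsp (Cq K y') φ₀ α p q (ta K φ₀ x y')| := h3
        _ ≤ c * ε * (y' - y) := h2
        _ = c * (ε * (y' - y)) := by ring
    exact le_of_mul_le_mul_left h4 hc
  refine measure_mono_null ?_ (measure_iUnion_null fun k : ℕ => hnull k)
  rintro φ₁ ⟨h1, h2, h3, y, hfl⟩
  obtain ⟨κ, hκ, hg⟩ := hfl.gd
  obtain ⟨r, R, hr, hBd⟩ := fln_exists_Bd (body_Cq hK hfl.hy)
  obtain ⟨k₁, hk₁⟩ := exists_nat_one_div_lt (lt_min hκ hr)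
  obtain ⟨k₂, hk₂⟩ := exists_nat_gt R
  set k := max k₁ k₂ with hk
  have hk1 : (1 : ℝ) / ((k : ℝ) + 1) ≤ min κ r := by
    refine le_trans ?_ hk₁.le
    apply one_div_le_one_div_of_le (by positivity)
    have : (k₁ : ℝ) ≤ k := by exact_mod_cast le_max_left k₁ k₂
    linarith
  have hk2 : R ≤ k := by
    have : (k₂ : ℝ) ≤ k := by exact_mod_cast le_max_right k₁ k₂
    linarith
  have hB : Bd (1 / ((k : ℝ) + 1)) k (Cq K y) :=
    ⟨hBd.body, (ball_subset_ball (hk1.trans (min_le_right _ _))).trans hBd.inn,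
      hBd.out.trans (closedBall_subset_closedBall hk2)⟩
  have hG : Gd (Cq K y) φ₀ φ₁ q (1 / ((k : ℝ) + 1)) (ta K φ₀ x y) :=
    fln_Gd_mono hg (hk1.trans (min_le_left _ _))
  simp only [mem_iUnion]
  refine ⟨k, y, ⟨φ₁, h1, h2, h3, hfl, hG, hB⟩, ?_⟩
  have hP := hf k y ⟨φ₁, h1, h2, h3, hfl, hG, hB⟩
  have hκ' : (0 : ℝ) < 1 / ((k : ℝ) + 1) := by positivity
  exact hCN1 (Cq K y) φ₀ (ta K φ₀ x y) p q (body_Cq hK hfl.hy) (h0 y hfl.hy) hfl.q0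
    ⟨hP.1, hP.2.1, hP.2.2.1 y hfl.hy, ⟨_, hκ', hP.2.2.2.2.1⟩, hP.2.2.2.1.cl⟩
    ⟨h1, h2, h3 y hfl.hy, ⟨κ, hκ, hg⟩, hfl.cl⟩

end Pool.XR2
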