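import Mathlib

/-!
# XR2, part (A): the displacement inequality and the flatness lemma (abstract forms)
-/

set_option autoImplicit false

open MeasureTheory Set Filter Topology
open scoped ENNReal

namespace Pool.Agent.H61.XR2

/-- If the area of the lens between `x` and `b` is at most `C (g x) ^ 2` for all `x` in `[a, b)`,
then `b - a ≤ 2 C g a`. -/
theorem displacement_le (g : ℝ → ℝ) (a b C : ℝ) (hab : a < b) (hC : 0 < C)
    (hg : ContinuousOn g (Icc a b)) (hpos : ∀ x ∈ Ico a b, 0 < g x)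
    (hA : ∀ x ∈ Ico a b, ∫ t in x..b, g t ≤ C * g x ^ 2) : b - a ≤ 2 * C * g a := by
  set J : ℝ → ℝ := fun x => ∫ t in x..b, g t with hJ
  have hint : ∀ x ∈ Icc a b, IntervalIntegrable g volume x b := fun x hx =>
    (hg.mono (by rw [uIcc_of_le hx.2]; exact Icc_subset_Icc_left hx.1)).intervalIntegrable
  have hJpos : ∀ x ∈ Ico a b, 0 < J x := by
    intro x hx
    refine intervalIntegral.intervalIntegral_pos_of_pos_on (hint x ⟨hx.1, hx.2.le⟩) ?_ hx.2
    intro t ht
    exact hpos t ⟨hx.1.trans ht.1.le, ht.2⟩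
  have hJb : J b = 0 := intervalIntegral.integral_same
  have hJc : ContinuousOn J (Icc a b) := by
    have := intervalIntegral.continuousOn_primitive_interval_left (f := g) (μ := volume) (a := a)
      (b := b) (by rw [uIcc_of_le hab.le]; exact hg.integrableOn_Icc)
    rwa [uIcc_of_le hab.le] at this
  have hder : ∀ x ∈ Ioo a b, HasDerivAt J (-g x) x := by
    intro x hx
    have hnb : Icc a b ∈ 𝓝 x := Icc_mem_nhds hx.1 hx.2
    refine intervalIntegral.integral_hasDerivAt_left (hint x ⟨hx.1.le, hx.2.le⟩) ?_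
      (hg.continuousAt hnb)
    exact hg.stronglyMeasurableAtFilter_nhdsWithin measurableSet_Icc x |>.filter_mono (by
      rw [nhdsWithin_eq_nhds.2 hnb])
  have hsC : 0 < √C := Real.sqrt_pos.2 hC
  set s : ℝ → ℝ := fun x => √(J x) + x / (2 * √C) with hs
  have hderS : ∀ x ∈ Ioo a b, HasDerivAt s (-g x / (2 * √(J x)) + 1 / (2 * √C)) x := by
    intro x hx
    have h1 := (hder x hx).sqrt (hJpos x ⟨hx.1.le, hx.2⟩).ne'
    have h2 : HasDerivAt (fun x : ℝ => x / (2 * √C)) (1 / (2 * √C)) x := by
      simpa using (hasDerivAt_id x).div_const (2 * √C)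
    exact h1.add h2
  have hanti : AntitoneOn s (Icc a b) := by
    refine antitoneOn_of_deriv_nonpos (convex_Icc a b) ?_ ?_ ?_
    · exact (hJc.sqrt).add (by fun_prop)
    · rw [interior_Icc]
      exact fun x hx => (hderS x hx).differentiableAt.differentiableWithinAt
    · rw [interior_Icc]
      intro x hx
      rw [(hderS x hx).deriv]
      have hx' : x ∈ Ico a b := ⟨hx.1.le, hx.2⟩
      have hJ0 := hJpos x hx'
      have hg0 := hpos x hx'
      have h1 : √(J x) ≤ √C * g x := by
        rw [Real.sqrt_le_left (by positivity)]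
        rw [mul_pow, Real.sq_sqrt hC.le]
        exact hA x hx'
      have h2 : 0 < √(J x) := Real.sqrt_pos.2 hJ0
      have h3 : 1 / (2 * √C) ≤ g x / (2 * √(J x)) := by
        rw [div_le_div_iff₀ (by positivity) (by positivity)]
        nlinarith
      have h4 : -g x / (2 * √(J x)) = -(g x / (2 * √(J x))) := by ring
      linarith
  have h1 := hanti ⟨le_refl a, hab.le⟩ ⟨hab.le, le_refl b⟩ hab.le
  simp only [hs, hJb, Real.sqrt_zero, zero_add] at h1
  have ha' : a ∈ Ico a b := ⟨le_refl a, hab⟩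
  have h2 : √(J a) ≤ √C * g a := by
    rw [Real.sqrt_le_left (by have := hpos a ha'; positivity)]
    rw [mul_pow, Real.sq_sqrt hC.le]
    exact hA a ha'
  have h3 : (b - a) / (2 * √C) ≤ √C * g a := by
    have : (b - a) / (2 * √C) = b / (2 * √C) - a / (2 * √C) := by ring
    linarith
  rw [div_le_iff₀ (by positivity)] at h3
  have h4 : √C * √C = C := Real.mul_self_sqrt hC.le
  nlinarith [h3, h4]

/-- `A' - A = B' - B` with `A'` concave, `B'` convex, `A` and `B` differentiable at `c`: the
difference is differentiable at `c`. -/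
theorem diff_of_concave_convex (A A' B B' : ℝ → ℝ) (a b c : ℝ) (hc : c ∈ Ioo a b)
    (hA' : ConcaveOn ℝ (Ioo a b) A') (hB' : ConvexOn ℝ (Ioo a b) B')
    (hG : ∀ t ∈ Ioo a b, A' t - A t = B' t - B t)
    (hdA : DifferentiableAt ℝ A c) (hdB : DifferentiableAt ℝ B c) :
    ∃ γ : ℝ, HasDerivAt (fun t => A' t - A t) γ c := by
  have hci : c ∈ interior (Ioo a b) := by rwa [interior_Ioo]
  have hnb : Ioo a b ∈ 𝓝 c := Ioo_mem_nhds hc.1 hc.2
  have hN := hA'.neg
  have r1 := hN.hasDerivWithinAt_rightDeriv_of_mem_interior hci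
  have l1 := hN.hasDerivWithinAt_leftDeriv_of_mem_interior hci
  have r2 := hB'.hasDerivWithinAt_rightDeriv_of_mem_interior hci
  have l2 := hB'.hasDerivWithinAt_leftDeriv_of_mem_interior hci
  have o1 := hN.leftDeriv_le_rightDeriv_of_mem_interior hci
  have o2 := hB'.leftDeriv_le_rightDeriv_of_mem_interior hci
  set R1 := derivWithin (-A') (Ioi c) c
  set L1 := derivWithin (-A') (Iio c) c
  set R2 := derivWithin B' (Ioi c) c
  set L2 := derivWithin B' (Iio c) c
  have hα := hdA.hasDerivAt
  have hβ := hdB.hasDerivAt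
  have hev : (fun t => A' t - A t) =ᶠ[𝓝 c] (fun t => B' t - B t) := by
    filter_upwards [hnb] with t ht using hG t ht
  have ev : ∀ s : Set ℝ, (fun t => A' t - A t) =ᶠ[𝓝[s] c] (fun t => B' t - B t) := fun s =>
    hev.filter_mono nhdsWithin_le_nhds
  have g1 : HasDerivWithinAt (fun t => A' t - A t) (-R1 - deriv A c) (Ioi c) c := by
    have h := (r1.neg).sub (hα.hasDerivWithinAt (s := Ioi c))
    rw [neg_neg] at h
    exact h
  have g2 : HasDerivWithinAt (fun t => A' t - A t) (R2 - deriv B c) (Ioi c) c :=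
    (r2.sub hβ.hasDerivWithinAt).congr_of_eventuallyEq (ev _) (hev.self_of_nhds)
  have g3 : HasDerivWithinAt (fun t => A' t - A t) (-L1 - deriv A c) (Iio c) c := by
    have h := (l1.neg).sub (hα.hasDerivWithinAt (s := Iio c))
    rw [neg_neg] at h
    exact h
  have g4 : HasDerivWithinAt (fun t => A' t - A t) (L2 - deriv B c) (Iio c) c :=
    (l2.sub hβ.hasDerivWithinAt).congr_of_eventuallyEq (ev _) (hev.self_of_nhds)
  have e1 : -R1 - deriv A c = R2 - deriv B c := (uniqueDiffWithinAt_Ioi c).eq_deriv _ g1 g2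
  have e2 : -L1 - deriv A c = L2 - deriv B c := (uniqueDiffWithinAt_Iio c).eq_deriv _ g3 g4
  have e3 : -R1 - deriv A c = -L1 - deriv A c := by
    apply le_antisymm <;> linarith
  refine ⟨-R1 - deriv A c, ?_⟩
  rw [hasDerivAt_iff_tendsto_slope, ← nhdsLT_sup_nhdsGT, tendsto_sup]
  constructor
  · rw [e3]
    exact (hasDerivWithinAt_iff_tendsto_slope' (by simp)).1 g3
  · exact (hasDerivWithinAt_iff_tendsto_slope' (by simp)).1 g1

/-- Flatness at a coincidence point: two concave functions `A, A'` and two convex functions `B, B'`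
with `A' - A = B' - B` on an open interval, `A` and `B` differentiable at `c`, and coincidences
accumulating at `c`. Then `A' - A = o(t - c)`. -/
theorem flat_of_acc (A A' B B' : ℝ → ℝ) (a b c : ℝ) (hc : c ∈ Ioo a b)
    (hA' : ConcaveOn ℝ (Ioo a b) A') (hB' : ConvexOn ℝ (Ioo a b) B')
    (hG : ∀ t ∈ Ioo a b, A' t - A t = B' t - B t)
    (hdA : DifferentiableAt ℝ A c) (hdB : DifferentiableAt ℝ B c) (h0 : A' c = A c)
    (hacc : ∃ᶠ t in 𝓝[≠] c, A' t = A t) :
    (fun t => A' t - A t) =o[𝓝 c] (fun t => t - c) := by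
  obtain ⟨γ, hγ⟩ := diff_of_concave_convex A A' B B' a b c hc hA' hB' hG hdA hdB
  have h1 := hasDerivAt_iff_tendsto_slope.1 hγ
  have h2 : γ = 0 := by
    refine tendsto_nhds_unique_of_frequently_eq h1 tendsto_const_nhds ?_
    refine hacc.mono fun t ht => ?_
    simp [slope_def_field, ht, h0]
  subst h2
  have h3 := hγ.isLittleO
  refine h3.congr_left fun t => ?_
  simp [h0]

end Pool.Agent.H61.XR2
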