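import Pool.Agent.H52.XR2.S1
import Pool.Agent.H61.XR2.Ode

/-!
# XR2, row ODE: from area to displacement
-/

set_option autoImplicit false

open MeasureTheory Set Filter Topology
open scoped ENNReal

namespace Pool.XR2

lemma ode_aux (Ψ ψ S : ℝ → ℝ) (x η B : ℝ) (hη : 0 < η) (hB : 0 ≤ B)
    (hd : ∀ z, HasDerivAt Ψ (ψ z) z) (hc : Continuous ψ) (hS : Monotone S) (hx : x < S x)
    (h : ∀ z ∈ uIcc x (S x), |z - x| < η →
      (∀ y ∈ uIcc z (S z), ψ y ≠ 0) ∧ |Ψ (S z) - Ψ z| ≤ B * ψ z ^ 2)
    (h2 : 2 * B * |ψ x| < η) : |S x - x| ≤ 2 * B * |ψ x| := by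
  set b : ℝ := min (S x) (x + η) with hb
  have hxb : x < b := lt_min hx (by linarith)
  have hbS : b ≤ S x := min_le_left _ _
  have hbη : b ≤ x + η := min_le_right _ _
  have hzS : ∀ z ∈ Ico x b, z < S z := fun z hz =>
    (hz.2.trans_le hbS).trans_le (hS hz.1)
  have hz : ∀ z ∈ Ico x b, (∀ y ∈ Icc z (S z), ψ y ≠ 0) ∧ |Ψ (S z) - Ψ z| ≤ B * ψ z ^ 2 := by
    intro z hz
    have h1 : z ∈ uIcc x (S x) := by
      rw [uIcc_of_le hx.le]
      exact ⟨hz.1, (hz.2.trans_le hbS).le⟩
    have h3 : |z - x| < η := by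
      rw [abs_of_nonneg (by linarith [hz.1])]
      linarith [hz.2]
    have h4 := h z h1 h3
    rw [uIcc_of_le (hzS z hz).le] at h4
    exact h4
  -- the area inequality
  have hA : ∀ z ∈ Ico x b, ∫ t in z..b, |ψ t| ≤ B * |ψ z| ^ 2 := by
    intro z hzI
    obtain ⟨h3, h4⟩ := hz z hzI
    have h5 : b ≤ S z := hbS.trans (hS hzI.1)
    have hint : ∀ u v : ℝ, IntervalIntegrable (fun t => |ψ t|) volume u v := fun u v =>
      (hc.abs).intervalIntegrable u v
    have h6 : ∫ t in z..b, |ψ t| ≤ ∫ t in z..(S z), |ψ t| := by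
      rw [← intervalIntegral.integral_add_adjacent_intervals (hint z b) (hint b (S z))]
      have : 0 ≤ ∫ t in b..(S z), |ψ t| := by
        refine intervalIntegral.integral_nonneg h5 fun u _ => abs_nonneg _
      linarith
    have h7 : ∫ t in z..(S z), |ψ t| = |Ψ (S z) - Ψ z| := by
      have hFT : ∫ t in z..(S z), ψ t = Ψ (S z) - Ψ z :=
        intervalIntegral.integral_eq_sub_of_hasDerivAt (fun u _ => hd u)
          (hc.intervalIntegrable _ _)
      have hsign : (∀ t ∈ Icc z (S z), 0 < ψ t) ∨ (∀ t ∈ Icc z (S z), ψ t < 0) := by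
        by_contra hcon
        push Not at hcon
        obtain ⟨⟨t1, ht1, h8⟩, ⟨t2, ht2, h9⟩⟩ := hcon
        have hpre : IsPreconnected (ψ '' Icc z (S z)) :=
          isPreconnected_Icc.image ψ hc.continuousOn
        have h10 : (0 : ℝ) ∈ ψ '' Icc z (S z) :=
          hpre.Icc_subset ⟨t1, ht1, rfl⟩ ⟨t2, ht2, rfl⟩ ⟨h8, h9⟩
        obtain ⟨t, ht, h11⟩ := h10
        exact h3 t ht h11
      rw [← hFT]
      rcases hsign with h8 | h8
      · have h9 : ∫ t in z..(S z), |ψ t| = ∫ t in z..(S z), ψ t := by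
          refine intervalIntegral.integral_congr fun t ht => ?_
          rw [uIcc_of_le (hzS z hzI).le] at ht
          exact abs_of_pos (h8 t ht)
        rw [h9, abs_of_nonneg]
        exact intervalIntegral.integral_nonneg (hzS z hzI).le fun t ht => (h8 t ht).le
      · have h9 : ∫ t in z..(S z), |ψ t| = ∫ t in z..(S z), -ψ t := by
          refine intervalIntegral.integral_congr fun t ht => ?_
          rw [uIcc_of_le (hzS z hzI).le] at ht
          exact abs_of_neg (h8 t ht)
        rw [h9, intervalIntegral.integral_neg, abs_of_nonpos]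
        rw [← neg_nonneg, ← intervalIntegral.integral_neg]
        exact intervalIntegral.integral_nonneg (hzS z hzI).le fun t ht => by
          linarith [h8 t ht]
    rw [sq_abs]
    linarith
  have hpos : ∀ z ∈ Ico x b, 0 < |ψ z| := fun z hzI =>
    abs_pos.2 ((hz z hzI).1 z ⟨le_refl z, (hzS z hzI).le⟩)
  have key : ∀ C : ℝ, B < C → b - x ≤ 2 * C * |ψ x| := by
    intro C hC
    refine Pool.Agent.H61.XR2.displacement_le (fun t => |ψ t|) x b C hxb (by linarith)
      hc.abs.continuousOn hpos fun z hzI => ?_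
    refine (hA z hzI).trans ?_
    exact mul_le_mul_of_nonneg_right hC.le (by positivity)
  have key' : b - x ≤ 2 * B * |ψ x| := by
    have h1 : Tendsto (fun C : ℝ => 2 * C * |ψ x|) (𝓝[>] B) (𝓝 (2 * B * |ψ x|)) := by
      have : Continuous (fun C : ℝ => 2 * C * |ψ x|) := by fun_prop
      exact (this.tendsto B).mono_left nhdsWithin_le_nhds
    exact ge_of_tendsto h1 (eventually_nhdsWithin_of_forall fun C hC => key C hC)
  have hbS' : b = S x := by
    rcases min_choice (S x) (x + η) with h3 | h3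
    · rw [hb, h3]
    · exfalso
      rw [← hb] at h3
      linarith
  rw [hbS'] at key'
  rw [abs_of_pos (by linarith)]
  exact key'

theorem t_ode : ODEStmt := by
  intro Ψ ψ S x η B hη hB hd hc hS h h2
  rcases lt_trichotomy x (S x) with hx | hx | hx
  · exact ode_aux Ψ ψ S x η B hη hB hd hc hS hx h h2
  · rw [← hx, sub_self, abs_zero]
    positivity
  · have h3 := ode_aux (fun t => -Ψ (-t)) (fun t => ψ (-t)) (fun t => -S (-t)) (-x) η B hη hB
      (fun z => by
        have h1 : HasDerivAt (fun t : ℝ => -Ψ (-t)) (-(ψ (-z) * (-1))) z :=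
          ((hd (-z)).comp z (hasDerivAt_neg z)).neg
        have h2 : -(ψ (-z) * (-1)) = ψ (-z) := by ring
        rwa [h2] at h1)
      (by fun_prop) (fun a b hab => neg_le_neg (hS (neg_le_neg hab)))
      (by simpa using hx) (fun z hz hzx => by
        simp only [neg_neg] at hz
        have hz' : -z ∈ uIcc x (S x) := by
          rw [uIcc_of_ge hx.le]
          rw [uIcc_of_le (by linarith)] at hz
          exact ⟨by linarith [hz.2], by linarith [hz.1]⟩
        have hzx' : |-z - x| < η := by
          rw [← abs_neg]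
          have : -(-z - x) = z - -x := by ring
          rw [this]
          exact hzx
        obtain ⟨h4, h5⟩ := h (-z) hz' hzx'
        refine ⟨fun y hy => ?_, ?_⟩
        · refine h4 (-y) ?_
          rw [mem_uIcc] at hy ⊢
          rcases hy with ⟨h6, h7⟩ | ⟨h6, h7⟩
          · exact Or.inr ⟨by linarith, by linarith⟩
          · exact Or.inl ⟨by linarith, by linarith⟩
        · simp only [neg_neg]
          have : -Ψ (S (-z)) - -Ψ (-z) = -(Ψ (S (-z)) - Ψ (-z)) := by ring
          rw [this, abs_neg]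
          exact h5)
      (by simpa using h2)
    simp only [neg_neg] at h3
    have : -S x - -x = -(S x - x) := by ring
    rw [this, abs_neg] at h3
    exact h3

end Pool.XR2
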