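import Mathlib

/-!
# Slices of a compact convex set in `ℝ × ℝ`, and points of non-differentiability
-/

set_option autoImplicit false

open MeasureTheory Set Filter Topology
open scoped ENNReal

namespace Pool.Agent.H61.XR2

/-- The slice of `S` over `t`. -/
def slice (S : Set (ℝ × ℝ)) (t : ℝ) : Set ℝ := {y | (t, y) ∈ S}

/-- The upper end of the slice. -/
noncomputable def up (S : Set (ℝ × ℝ)) (t : ℝ) : ℝ := sSup (slice S t)

/-- The lower end of the slice. -/
noncomputable def lo (S : Set (ℝ × ℝ)) (t : ℝ) : ℝ := sInf (slice S t)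

/-- The set of levels. -/
def lev (S : Set (ℝ × ℝ)) : Set ℝ := {t | (slice S t).Nonempty}

lemma slice_compact {S : Set (ℝ × ℝ)} (hS : IsCompact S) (t : ℝ) : IsCompact (slice S t) := by
  have h1 : slice S t = Prod.snd '' (S ∩ Prod.fst ⁻¹' {t}) := by
    ext y
    constructor
    · intro h; exact ⟨(t, y), ⟨h, rfl⟩, rfl⟩
    · rintro ⟨⟨a, b⟩, ⟨h, h'⟩, rfl⟩
      have : a = t := h'
      subst this
      exact h
  rw [h1]
  exact (hS.inter_right (isClosed_singleton.preimage continuous_fst)).image continuous_snd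

lemma up_mem {S : Set (ℝ × ℝ)} (hS : IsCompact S) {t : ℝ} (ht : t ∈ lev S) : (t, up S t) ∈ S :=
  (slice_compact hS t).sSup_mem ht

lemma lo_mem {S : Set (ℝ × ℝ)} (hS : IsCompact S) {t : ℝ} (ht : t ∈ lev S) : (t, lo S t) ∈ S :=
  (slice_compact hS t).sInf_mem ht

lemma le_up {S : Set (ℝ × ℝ)} (hS : IsCompact S) {t y : ℝ} (h : (t, y) ∈ S) : y ≤ up S t :=
  le_csSup (slice_compact hS t).bddAbove h

lemma lo_le {S : Set (ℝ × ℝ)} (hS : IsCompact S) {t y : ℝ} (h : (t, y) ∈ S) : lo S t ≤ y :=
  csInf_le (slice_compact hS t).bddBelow h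

lemma lo_le_up {S : Set (ℝ × ℝ)} (hS : IsCompact S) {t : ℝ} (ht : t ∈ lev S) :
    lo S t ≤ up S t := lo_le hS (up_mem hS ht)

lemma mem_iff_slice {S : Set (ℝ × ℝ)} (hS : IsCompact S) (hc : Convex ℝ S) {t : ℝ}
    (ht : t ∈ lev S) (y : ℝ) : (t, y) ∈ S ↔ lo S t ≤ y ∧ y ≤ up S t := by
  constructor
  · exact fun h => ⟨lo_le hS h, le_up hS h⟩
  · rintro ⟨h1, h2⟩
    have hseg := hc.segment_subset (lo_mem hS ht) (up_mem hS ht)
    rcases (lo_le_up hS ht).eq_or_lt with h | h
    · have : y = lo S t := le_antisymm (by linarith) h1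
      rw [this]; exact lo_mem hS ht
    · apply hseg
      refine ⟨(up S t - y) / (up S t - lo S t), (y - lo S t) / (up S t - lo S t),
        div_nonneg (by linarith) (by linarith), div_nonneg (by linarith) (by linarith), ?_, ?_⟩
      · rw [← add_div, div_eq_one_iff_eq (by linarith)]; ring
      · have hne : up S t - lo S t ≠ 0 := by linarith
        ext
        · simp only [Prod.smul_mk, smul_eq_mul, Prod.mk_add_mk]
          field_simp
          ring
        · simp only [Prod.smul_mk, smul_eq_mul, Prod.mk_add_mk]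
          field_simp
          ring

lemma lev_convex {S : Set (ℝ × ℝ)} (hc : Convex ℝ S) : Convex ℝ (lev S) := by
  intro t ht t' ht' a b ha hb hab
  obtain ⟨y, hy⟩ := ht
  obtain ⟨y', hy'⟩ := ht'
  exact ⟨a • y + b • y', hc hy hy' ha hb hab⟩

lemma up_concave {S : Set (ℝ × ℝ)} (hS : IsCompact S) (hc : Convex ℝ S) :
    ConcaveOn ℝ (lev S) (up S) := by
  refine ⟨lev_convex hc, fun t ht t' ht' a b ha hb hab => ?_⟩
  exact le_up hS (hc (up_mem hS ht) (up_mem hS ht') ha hb hab)

lemma lo_convex {S : Set (ℝ × ℝ)} (hS : IsCompact S) (hc : Convex ℝ S) :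
    ConvexOn ℝ (lev S) (lo S) := by
  refine ⟨lev_convex hc, fun t ht t' ht' a b ha hb hab => ?_⟩
  exact lo_le hS (hc (lo_mem hS ht) (lo_mem hS ht') ha hb hab)

lemma vol_slice {S : Set (ℝ × ℝ)} (hS : IsCompact S) (hc : Convex ℝ S) {t : ℝ}
    (ht : t ∈ lev S) : (volume (slice S t)).toReal = up S t - lo S t := by
  have h1 : slice S t = Icc (lo S t) (up S t) := by
    ext y
    exact mem_iff_slice hS hc ht y
  rw [h1, Real.volume_Icc, ENNReal.toReal_ofReal]
  linarith [lo_le_up hS ht]

lemma len_concave {S : Set (ℝ × ℝ)} (hS : IsCompact S) (hc : Convex ℝ S) :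
    ConcaveOn ℝ (lev S) (fun t => (volume (slice S t)).toReal) := by
  have h1 : ConcaveOn ℝ (lev S) (fun t => up S t - lo S t) :=
    (up_concave hS hc).sub (lo_convex hS hc)
  refine ⟨h1.1, fun t ht t' ht' a b ha hb hab => ?_⟩
  have h2 := h1.2 ht ht' ha hb hab
  simp only at h2 ⊢
  rw [vol_slice hS hc ht, vol_slice hS hc ht', vol_slice hS hc (h1.1 ht ht' ha hb hab)]
  exact h2

/-- One-sided derivatives that agree. -/
lemma hasDerivAt_of_sides {f : ℝ → ℝ} {x γ : ℝ} (h1 : HasDerivWithinAt f γ (Iio x) x)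
    (h2 : HasDerivWithinAt f γ (Ioi x) x) : HasDerivAt f γ x := by
  rw [hasDerivAt_iff_tendsto_slope, ← nhdsLT_sup_nhdsGT, tendsto_sup]
  exact ⟨(hasDerivWithinAt_iff_tendsto_slope' (by simp)).1 h1,
    (hasDerivWithinAt_iff_tendsto_slope' (by simp)).1 h2⟩

/-- A convex function is differentiable except at countably many interior points. -/
theorem convex_countable_nondiff {f : ℝ → ℝ} {D : Set ℝ} (hf : ConvexOn ℝ D f) :
    {x ∈ interior D | ¬ DifferentiableAt ℝ f x}.Countable := by
  set N := {x ∈ interior D | ¬ DifferentiableAt ℝ f x} with hN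
  have key : ∀ x ∈ N, derivWithin f (Iio x) x < derivWithin f (Ioi x) x := by
    rintro x ⟨hx, hnd⟩
    refine lt_of_le_of_ne (hf.leftDeriv_le_rightDeriv_of_mem_interior hx) fun h => hnd ?_
    have h1 := hf.hasDerivWithinAt_leftDeriv_of_mem_interior hx
    have h2 := hf.hasDerivWithinAt_rightDeriv_of_mem_interior hx
    rw [← h] at h2
    exact (hasDerivAt_of_sides h1 h2).differentiableAt
  have hr : ∀ x : N, ∃ r : ℚ, derivWithin f (Iio (x : ℝ)) x < r ∧
      (r : ℝ) < derivWithin f (Ioi (x : ℝ)) x := fun x => exists_rat_btwn (key x x.2)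
  choose r hr using hr
  have hinj : Function.Injective r := by
    intro x y hxy
    by_contra hne
    have aux : ∀ x y : N, (x : ℝ) < y → r x < r y := by
      intro x y h
      have h1 := hf.rightDeriv_le_slope_of_mem_interior x.2.1 (interior_subset y.2.1) h
      have h2 := hf.slope_le_leftDeriv_of_mem_interior (interior_subset x.2.1) y.2.1 h
      have h3 : (r x : ℝ) < r y := by
        have := (hr x).2
        have := (hr y).1
        linarith
      exact_mod_cast h3
    rcases lt_or_gt_of_ne (fun h => hne (Subtype.ext h) : (x : ℝ) ≠ y) with h | h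
    · exact absurd hxy (aux x y h).ne
    · exact absurd hxy (aux y x h).ne'
  exact Set.countable_coe_iff.1 hinj.countable

theorem concave_countable_nondiff {f : ℝ → ℝ} {D : Set ℝ} (hf : ConcaveOn ℝ D f) :
    {x ∈ interior D | ¬ DifferentiableAt ℝ f x}.Countable := by
  refine (convex_countable_nondiff hf.neg).mono ?_
  rintro x ⟨hx, hnd⟩
  refine ⟨hx, fun h => hnd ?_⟩
  have := h.neg
  simpa using this

/-- If a sum of two concave functions is differentiable, both are. -/
theorem diff_of_add {f g : ℝ → ℝ} {D : Set ℝ} (hf : ConcaveOn ℝ D f) (hg : ConcaveOn ℝ D g)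
    {x : ℝ} (hx : x ∈ interior D) (h : DifferentiableAt ℝ (fun t => f t + g t) x) :
    DifferentiableAt ℝ f x ∧ DifferentiableAt ℝ g x := by
  have hf' := hf.neg
  have hg' := hg.neg
  have r1 := hf'.hasDerivWithinAt_rightDeriv_of_mem_interior hx
  have l1 := hf'.hasDerivWithinAt_leftDeriv_of_mem_interior hx
  have r2 := hg'.hasDerivWithinAt_rightDeriv_of_mem_interior hx
  have l2 := hg'.hasDerivWithinAt_leftDeriv_of_mem_interior hx
  have o1 := hf'.leftDeriv_le_rightDeriv_of_mem_interior hx
  have o2 := hg'.leftDeriv_le_rightDeriv_of_mem_interior hx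
  have hs := h.hasDerivAt.neg
  have e1 : deriv (fun t => f t + g t) x = -(derivWithin (-f) (Ioi x) x +
      derivWithin (-g) (Ioi x) x) := by
    have h1 := (r1.add r2)
    have h2 : HasDerivWithinAt (fun t => -(f t + g t)) (-deriv (fun t => f t + g t) x) (Ioi x) x :=
      hs.hasDerivWithinAt
    have h3 : (-f + -g) = fun t => -(f t + g t) := by
      funext t; simp only [Pi.add_apply, Pi.neg_apply]; ring
    rw [h3] at h1
    have := (uniqueDiffWithinAt_Ioi x).eq_deriv _ h2 h1
    linarith
  have e2 : deriv (fun t => f t + g t) x = -(derivWithin (-f) (Iio x) x +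
      derivWithin (-g) (Iio x) x) := by
    have h1 := (l1.add l2)
    have h2 : HasDerivWithinAt (fun t => -(f t + g t)) (-deriv (fun t => f t + g t) x) (Iio x) x :=
      hs.hasDerivWithinAt
    have h3 : (-f + -g) = fun t => -(f t + g t) := by
      funext t; simp only [Pi.add_apply, Pi.neg_apply]; ring
    rw [h3] at h1
    have := (uniqueDiffWithinAt_Iio x).eq_deriv _ h2 h1
    linarith
  have e3 : derivWithin (-f) (Iio x) x = derivWithin (-f) (Ioi x) x := by
    apply le_antisymm <;> linarith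
  have e4 : derivWithin (-g) (Iio x) x = derivWithin (-g) (Ioi x) x := by
    apply le_antisymm <;> linarith
  rw [e3] at l1
  rw [e4] at l2
  have d1 := (hasDerivAt_of_sides l1 r1).differentiableAt.neg
  have d2 := (hasDerivAt_of_sides l2 r2).differentiableAt.neg
  rw [neg_neg] at d1 d2
  exact ⟨d1, d2⟩

end Pool.Agent.H61.XR2
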