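import Pool.Agent.H52.XR2.S1
import Pool.Agent.H61.XR2.Graph
import Pool.Agent.H91.XR.B1
import Pool.Agent.H20.XR.P1

/-!
# XR2, row XND: countably many levels where the X-ray is not differentiable
-/

set_option autoImplicit false

open MeasureTheory Set Filter Topology Metric Asymptotics
open scoped Real ENNReal

namespace Pool.XR2

open Pool.Agent.H45.XR Pool.Agent.H61.XR2

lemma xnd_yc_fr (φ : ℝ) (q : ℝ × ℝ) : yc φ (fr φ q) = q.2 := by
  have h := Real.sin_sq_add_cos_sq φ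
  simp only [fr, yc, Complex.add_re, Complex.add_im, Complex.mul_re, Complex.mul_im,
    Complex.ofReal_re, Complex.ofReal_im, e_re, e_im, Complex.I_re, Complex.I_im]
  linear_combination q.2 * h

lemma xnd_fr_tc (φ : ℝ) (z : ℂ) : fr φ (tc φ z, yc φ z) = z := by
  have h := decomp φ z
  simp only [fr]
  rw [add_comm]
  exact h.symm

/-- The body in the coordinates `(tc, yc)`. -/
def grf (C : Set ℂ) (φ : ℝ) : Set (ℝ × ℝ) := fr φ ⁻¹' C

lemma grf_compact {C : Set ℂ} (hC : IsCompact C) (φ : ℝ) : IsCompact (grf C φ) := by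
  have h1 : grf C φ = (fun z => (tc φ z, yc φ z)) '' C := by
    ext q
    constructor
    · intro h
      refine ⟨fr φ q, h, ?_⟩
      change (tc φ (fr φ q), yc φ (fr φ q)) = q
      rw [tc_fr, xnd_yc_fr]
    · rintro ⟨z, hz, rfl⟩
      change fr φ (tc φ z, yc φ z) ∈ C
      rw [xnd_fr_tc]; exact hz
  rw [h1]
  exact hC.image ((continuous_tc φ).prodMk (continuous_yc φ))

lemma grf_convex {C : Set ℂ} (hC : Convex ℝ C) (φ : ℝ) : Convex ℝ (grf C φ) := by
  intro q hq q' hq' a b ha hb hab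
  have h := hC hq hq' ha hb hab
  have h2 : fr φ (a • q + b • q') = a • fr φ q + b • fr φ q' := by
    simp only [fr, Prod.fst_add, Prod.snd_add, Prod.smul_fst, Prod.smul_snd, smul_eq_mul,
      Complex.ofReal_add, Complex.ofReal_mul, Complex.real_smul]
    ring
  change fr φ (a • q + b • q') ∈ C
  rw [h2]
  exact h

lemma grf_mem {C : Set ℂ} {φ : ℝ} {z : ℂ} (hz : z ∈ C) : (tc φ z, yc φ z) ∈ grf C φ := by
  change fr φ (tc φ z, yc φ z) ∈ C
  rw [xnd_fr_tc]; exact hz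

lemma xr_eq_slice (C : Set ℂ) (φ t : ℝ) : xr C φ t = (volume (slice (grf C φ) t)).toReal := rfl

/-- The level of a point between two other levels is an interior level. -/
lemma lev_interior {C : Set ℂ} (hC : Convex ℝ C) {φ t : ℝ} {w w' : ℂ} (hw : w ∈ C) (hw' : w' ∈ C)
    (h1 : tc φ w < t) (h2 : t < tc φ w') : t ∈ interior (lev (grf C φ)) := by
  have hcv := lev_convex (grf_convex hC φ)
  have m1 : tc φ w ∈ lev (grf C φ) := ⟨_, grf_mem hw⟩
  have m2 : tc φ w' ∈ lev (grf C φ) := ⟨_, grf_mem hw'⟩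
  rw [mem_interior]
  refine ⟨Ioo (tc φ w) (tc φ w'), fun s hs => ?_, isOpen_Ioo, ⟨h1, h2⟩⟩
  exact hcv.ordConnected.out m1 m2 ⟨hs.1.le, hs.2.le⟩

theorem t_xnd (hFLX : FLXStmt) (hFLB : FLBStmt) : XNDStmt := by
  intro C φ hC hS
  obtain ⟨-, -, -, -, hLv, -⟩ := hFLB C φ hC hS
  have hconc : ConcaveOn ℝ (lev (grf C φ)) (xr C φ) :=
    len_concave (grf_compact hC.cpt φ) (grf_convex hC.conv φ)
  have hN := concave_countable_nondiff hconc
  set N := {t ∈ interior (lev (grf C φ)) | ¬ DifferentiableAt ℝ (xr C φ) t} with hNdef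
  have hF := (hFLX C φ hC hS).1
  have hfib : ∀ t : ℝ, {z : ℝ | ¬ Fx (fl C φ) z ∧ tc φ (pt C z) = t}.Countable := by
    intro t
    rcases Set.eq_empty_or_nonempty {z : ℝ | ¬ Fx (fl C φ) z ∧ tc φ (pt C z) = t} with h | ⟨z₀, h₀⟩
    · rw [h]; exact Set.countable_empty
    have hcount : ∀ w : ℝ, {z : ℝ | pt C z = pt C w}.Countable := by
      intro w
      refine (Set.countable_range (fun n : ℤ => w + n * (2 * π))).mono ?_
      intro z hz
      obtain ⟨n, hn⟩ := B3.pt_eq hC hz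
      exact ⟨n, hn.symm⟩
    refine ((hcount z₀).union (hcount (fl C φ z₀))).mono ?_
    rintro z ⟨hz1, hz2⟩
    by_contra hcon
    simp only [mem_union, not_or] at hcon
    obtain ⟨hc1, hc2⟩ := hcon
    have hne : pt C z₀ ≠ pt C (fl C φ z₀) := by
      intro h
      obtain ⟨n, hn⟩ := B3.pt_eq hC h.symm
      exact h₀.1 ⟨n, hn⟩
    exact p1_three hC hS (pt_mem hC z) (pt_mem hC z₀) (pt_mem hC (fl C φ z₀))
      (pt_notMem_interior hC z) (pt_notMem_interior hC z₀) (pt_notMem_interior hC _)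
      hc1 hne hc2 (by rw [hz2, h₀.2]) (hF.line z₀).symm
  refine (hN.biUnion fun t _ => hfib t).mono ?_
  rintro z ⟨hz1, hz2⟩
  simp only [mem_iUnion]
  refine ⟨tc φ (pt C z), ⟨?_, hz2⟩, hz1, rfl⟩
  obtain ⟨κ, hκ, ⟨w, hw, h1⟩, ⟨w', hw', h2⟩⟩ := (hLv z).1 hz1
  exact lev_interior hC.conv hw hw' (by linarith) (by linarith)

end Pool.XR2
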