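import Mathlib

/-!
# XR2, part (A): the lens estimate (abstract form)
-/

set_option autoImplicit false

open MeasureTheory Set Filter Topology
open scoped ENNReal

namespace Pool.Agent.H61.XR2

/-- A measure preserving homeomorphism `F` of an open set `Λ` of finite area cannot move the whole
section `{L = t0}` of `Λ` strictly to one side, if it does not move some point of the other side. -/
theorem lens_abs (Λ : Set ℂ) (hΛ : IsOpen Λ) (hfin : volume Λ ≠ ∞) (F G : ℂ → ℂ)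
    (hF : ContinuousOn F Λ) (hG : ContinuousOn G Λ) (mF : MapsTo F Λ Λ) (mG : MapsTo G Λ Λ)
    (FG : ∀ z ∈ Λ, F (G z) = z) (GF : ∀ z ∈ Λ, G (F z) = z)
    (hvol : ∀ S ⊆ Λ, MeasurableSet S → volume (F '' S) = volume S)
    (L : ℂ → ℝ) (hL : Continuous L) (t0 : ℝ) (hconn : IsPreconnected {z ∈ Λ | L z < t0})
    (hz : ∃ z ∈ Λ, L z < t0 ∧ L (F z) < t0)
    (hz1 : ∃ z ∈ Λ, L z = t0 ∧ z ∈ closure {z ∈ Λ | L z < t0})
    (hs : ∀ z ∈ Λ, L z = t0 → t0 < L (F z)) : False := by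
  set A : Set ℂ := {z ∈ Λ | L z < t0} with hA
  have hAo : IsOpen A := by
    have : A = Λ ∩ L ⁻¹' Iio t0 := by ext z; simp [hA]
    rw [this]
    exact hΛ.inter (isOpen_Iio.preimage hL)
  have hAΛ : A ⊆ Λ := fun z hz => hz.1
  -- the preimage of `A` is contained in `A`
  have hB : ∀ z ∈ A, G z ∈ A := by
    have hpre : IsPreconnected (G '' A) := hconn.image G (hG.mono hAΛ)
    have hpreL : IsPreconnected (L '' (G '' A)) := hpre.image L hL.continuousOn
    obtain ⟨z0, hz0, h1, h2⟩ := hz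
    have hz0' : G (F z0) = z0 := GF z0 hz0
    intro z hzA
    by_contra hcon
    have h3 : t0 ≤ L (G z) := by
      by_contra h
      exact hcon ⟨mG hzA.1, not_le.1 h⟩
    have h4 : L z0 ∈ L '' (G '' A) := by
      refine ⟨z0, ⟨F z0, ⟨mF hz0, h2⟩, hz0'⟩, rfl⟩
    have h5 : L (G z) ∈ L '' (G '' A) := ⟨G z, ⟨z, hzA, rfl⟩, rfl⟩
    have h6 : t0 ∈ L '' (G '' A) := hpreL.Icc_subset h4 h5 ⟨h1.le, h3⟩
    obtain ⟨w, ⟨z', hz'A, rfl⟩, hw⟩ := h6
    have h7 := hs (G z') (mG hz'A.1) hw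
    rw [FG z' hz'A.1] at h7
    exact absurd hz'A.2 (not_lt.2 h7.le)
  have hAF : A ⊆ F '' A := fun z hz => ⟨G z, hB z hz, FG z hz.1⟩
  -- a nonempty open piece of `F '' A` on the other side
  obtain ⟨z1, hz1, h1, h2⟩ := hz1
  have h3 := hs z1 hz1 h1
  have hFA : F '' A = Λ ∩ G ⁻¹' A := by
    ext z
    constructor
    · rintro ⟨w, hw, rfl⟩
      exact ⟨mF hw.1, by rw [mem_preimage, GF w hw.1]; exact hw⟩
    · rintro ⟨hz, hz'⟩
      exact ⟨G z, hz', FG z hz⟩
  have hFAo : IsOpen (F '' A) := by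
    rw [hFA]
    exact hG.isOpen_inter_preimage hΛ hAo
  set P : Set ℂ := F '' A ∩ L ⁻¹' Ioi t0 with hP
  have hPo : IsOpen P := hFAo.inter (isOpen_Ioi.preimage hL)
  have hPne : P.Nonempty := by
    have h4 : ContinuousWithinAt (fun z => L (F z)) Λ z1 := (hL.comp_continuousOn hF) z1 hz1
    have h5 : ∀ᶠ z in 𝓝[Λ] z1, t0 < L (F z) := h4.eventually (isOpen_Ioi.mem_nhds h3)
    have h6 : ∀ᶠ z in 𝓝 z1, t0 < L (F z) := by
      rwa [hΛ.nhdsWithin_eq hz1] at h5
    have h7 : ∃ᶠ z in 𝓝 z1, z ∈ A := mem_closure_iff_frequently.1 h2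
    obtain ⟨z, hzA, hz⟩ := (h7.and_eventually h6).exists
    exact ⟨F z, ⟨z, hzA, rfl⟩, hz⟩
  have hPpos : 0 < volume P := hPo.measure_pos volume hPne
  have hdisj : Disjoint A P := by
    rw [Set.disjoint_left]
    rintro z hz ⟨_, h⟩
    exact absurd hz.2 (not_lt.2 (le_of_lt h))
  have hle : volume A + volume P ≤ volume (F '' A) := by
    rw [← measure_union hdisj hPo.measurableSet]
    exact measure_mono (union_subset hAF inter_subset_left)
  rw [hvol A hAΛ hAo.measurableSet] at hle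
  have hAfin : volume A ≠ ∞ := ne_top_of_le_ne_top hfin (measure_mono hAΛ)
  have := ENNReal.lt_add_right hAfin hPpos.ne'
  exact absurd hle (not_le.2 this)

end Pool.Agent.H61.XR2
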