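import Pool.Agent.H52.XR2.S1

/-!
# XR2, row NLM: a null lemma
-/

set_option autoImplicit false

open MeasureTheory Set Filter Topology
open scoped ENNReal

namespace Pool.XR2

lemma nlm_step (E : Set ℝ) (f : ℝ → ℝ) (a b ε δ : ℝ) (hab : a < b) (hε : 0 ≤ ε) (hδ : 0 < δ) :
    volume (f '' {x ∈ E | x ∈ Ioo a b ∧ ∀ y ∈ E, x < y → y < x + δ → |f y - f x| ≤ ε * (y - x)}) ≤
      ENNReal.ofReal (ε * (b - a)) := by
  obtain ⟨n, hn⟩ := exists_nat_gt ((b - a) / δ)
  have hba : 0 < b - a := sub_pos.2 hab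
  have hn0 : (0 : ℝ) < n := lt_trans (div_pos hba hδ) hn
  set L : ℝ := (b - a) / n with hL
  have hL0 : 0 < L := div_pos hba hn0
  have hLδ : L < δ := by
    rw [hL, div_lt_iff₀ hn0]
    rw [div_lt_iff₀ hδ] at hn
    linarith [mul_comm (n : ℝ) δ]
  set A : Set ℝ := {x ∈ E | x ∈ Ioo a b ∧ ∀ y ∈ E, x < y → y < x + δ → |f y - f x| ≤ ε * (y - x)}
    with hA
  set V : ℕ → Set ℝ := fun i => f '' {x ∈ A | a + i * L ≤ x ∧ x ≤ a + (i + 1) * L} with hV
  have hcov : f '' A ⊆ ⋃ i ∈ Finset.range n, V i := by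
    rintro v ⟨c, hcA, rfl⟩
    have hc : c ∈ Ioo a b := hcA.2.1
    have hca : 0 < (c - a) / L := div_pos (sub_pos.2 hc.1) hL0
    set i := ⌊(c - a) / L⌋₊ with hi
    have h1 : (i : ℝ) ≤ (c - a) / L := Nat.floor_le hca.le
    have h2 : (c - a) / L < i + 1 := Nat.lt_floor_add_one _
    rw [le_div_iff₀ hL0] at h1
    rw [div_lt_iff₀ hL0] at h2
    have h3 : i < n := by
      have : (i : ℝ) < n := by
        have h4 : (i : ℝ) * L < n * L := by
          have : (n : ℝ) * L = b - a := by rw [hL]; field_simp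
          rw [this]
          linarith [hc.2]
        exact lt_of_mul_lt_mul_right h4 hL0.le
      exact_mod_cast this
    simp only [mem_iUnion]
    exact ⟨i, Finset.mem_range.2 h3, c, ⟨hcA, by linarith, by linarith⟩, rfl⟩
  have hdiam : ∀ i, volume (V i) ≤ ENNReal.ofReal (ε * L) := by
    intro i
    refine (Real.volume_le_diam _).trans ?_
    refine Metric.ediam_le fun v hv v' hv' => ?_
    rw [edist_dist]
    refine ENNReal.ofReal_le_ofReal ?_
    obtain ⟨c, ⟨hc, hc1, hc2⟩, rfl⟩ := hv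
    obtain ⟨c', ⟨hc', hc1', hc2'⟩, rfl⟩ := hv'
    rw [Real.dist_eq]
    rcases lt_trichotomy c c' with h | h | h
    · rw [abs_sub_comm]
      refine (hc.2.2 c' hc'.1 h (by linarith)).trans ?_
      exact mul_le_mul_of_nonneg_left (by linarith) hε
    · subst h
      simp only [sub_self, abs_zero]
      positivity
    · refine (hc'.2.2 c hc.1 h (by linarith)).trans ?_
      exact mul_le_mul_of_nonneg_left (by linarith) hε
  calc volume _ ≤ volume (⋃ i ∈ Finset.range n, V i) := measure_mono hcov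
    _ ≤ ∑ i ∈ Finset.range n, volume (V i) := measure_biUnion_finset_le _ _
    _ ≤ ∑ _i ∈ Finset.range n, ENNReal.ofReal (ε * L) := Finset.sum_le_sum fun i _ => hdiam i
    _ = ENNReal.ofReal (ε * (b - a)) := by
        rw [Finset.sum_const, Finset.card_range, nsmul_eq_mul, ← ENNReal.ofReal_natCast,
          ← ENNReal.ofReal_mul hn0.le]
        congr 1
        rw [hL]
        field_simp

theorem t_nlm : NLMStmt := by
  intro E f hE
  have hbox : ∀ n : ℕ, volume (f '' (E ∩ Ioo (-(n : ℝ) - 1) (n + 1))) = 0 := by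
    intro n
    set a : ℝ := -(n : ℝ) - 1 with ha
    set b : ℝ := n + 1 with hb
    have hab : a < b := by
      have : (0 : ℝ) ≤ n := n.cast_nonneg
      rw [ha, hb]; linarith
    have hle : ∀ ε : ℝ, 0 < ε → volume (f '' (E ∩ Ioo a b)) ≤ ENNReal.ofReal (ε * (b - a)) := by
      intro ε hε
      set S : ℕ → Set ℝ := fun m => f '' {x ∈ E | x ∈ Ioo a b ∧ ∀ y ∈ E, x < y →
        y < x + 1 / ((m : ℝ) + 1) → |f y - f x| ≤ ε * (y - x)} with hS
      have hNS : f '' (E ∩ Ioo a b) ⊆ ⋃ m, S m := by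
        rintro v ⟨x, ⟨hx, hxab⟩, rfl⟩
        obtain ⟨r, hr, h1⟩ := hE x hx ε hε
        obtain ⟨m, hm⟩ := exists_nat_one_div_lt hr
        rw [mem_iUnion]
        exact ⟨m, x, ⟨hx, hxab, fun y hy h2 h3 => h1 y hy h2 (by linarith)⟩, rfl⟩
      have hmonoS : Monotone S := by
        intro m m' hmm
        rintro v ⟨x, ⟨hx, hxab, h1⟩, rfl⟩
        refine ⟨x, ⟨hx, hxab, fun y hy h2 h3 => h1 y hy h2 (h3.trans_le ?_)⟩, rfl⟩
        have : (1 : ℝ) / ((m' : ℝ) + 1) ≤ 1 / ((m : ℝ) + 1) := by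
          apply one_div_le_one_div_of_le (by positivity)
          have : (m : ℝ) ≤ m' := by exact_mod_cast hmm
          linarith
        linarith
      calc volume (f '' (E ∩ Ioo a b)) ≤ volume (⋃ m, S m) := measure_mono hNS
        _ = ⨆ m, volume (S m) := hmonoS.measure_iUnion
        _ ≤ ENNReal.ofReal (ε * (b - a)) := by
            refine iSup_le fun m => ?_
            exact nlm_step E f a b ε (1 / ((m : ℝ) + 1)) hab hε.le (by positivity)
    have hlim : Tendsto (fun ε : ℝ => ENNReal.ofReal (ε * (b - a))) (𝓝[>] 0) (𝓝 0) := by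
      have h1 : Tendsto (fun ε : ℝ => ε * (b - a)) (𝓝 0) (𝓝 (0 * (b - a))) := by
        have : Continuous (fun ε : ℝ => ε * (b - a)) := by fun_prop
        exact this.tendsto 0
      rw [zero_mul] at h1
      have h2 := ENNReal.tendsto_ofReal h1
      rw [ENNReal.ofReal_zero] at h2
      exact h2.mono_left nhdsWithin_le_nhds
    refine le_antisymm (ge_of_tendsto hlim ?_) zero_le
    exact eventually_nhdsWithin_of_forall fun ε hε => hle ε hε
  refine measure_mono_null ?_ (measure_iUnion_null hbox)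
  rintro v ⟨x, hx, rfl⟩
  obtain ⟨n, hn⟩ := exists_nat_gt |x|
  rw [abs_lt] at hn
  rw [mem_iUnion]
  exact ⟨n, x, ⟨hx, by constructor <;> linarith [hn.1, hn.2]⟩, rfl⟩

end Pool.XR2
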