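import Mathlib

/-!
# XR2, part (A): the null lemma (abstract form)
-/

set_option autoImplicit false

open MeasureTheory Set Filter Topology
open scoped ENNReal

namespace Pool.Agent.H61.XR2

/-- One step of the null lemma: the parameters `v` in `J` for which some zero `c` of `D · v` satisfies
`|D t v| ≤ ε (t - c)` on `(c, c + δ)`, where `D t` grows in `v` at rate at least `k`. -/
lemma null_step (D : ℝ → ℝ → ℝ) (a b : ℝ) (hab : a < b) (J : Set ℝ) (k ε δ : ℝ) (hk : 0 < k)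
    (hε : 0 ≤ ε) (hδ : 0 < δ)
    (hmono : ∀ t ∈ Ioo a b, ∀ v ∈ J, ∀ v' ∈ J, v < v' → k * (v' - v) ≤ D t v' - D t v) :
    volume {v ∈ J | ∃ c ∈ Ioo a b, D c v = 0 ∧ ∀ t ∈ Ioo a b, c < t → t < c + δ →
      |D t v| ≤ ε * (t - c)} ≤ ENNReal.ofReal (ε / k * (b - a)) := by
  obtain ⟨n, hn⟩ := exists_nat_gt ((b - a) / δ)
  have hba : 0 < b - a := sub_pos.2 hab
  have hn0 : (0 : ℝ) < n := lt_trans (div_pos hba hδ) hn
  set L : ℝ := (b - a) / n with hL
  have hL0 : 0 < L := div_pos hba hn0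
  have hLδ : L < δ := by
    rw [hL, div_lt_iff₀ hn0]
    rw [div_lt_iff₀ hδ] at hn
    linarith [mul_comm (n : ℝ) δ]
  set V : ℕ → Set ℝ := fun i => {v ∈ J | ∃ c ∈ Ioo a b, (a + i * L ≤ c ∧ c ≤ a + (i + 1) * L) ∧
    D c v = 0 ∧ ∀ t ∈ Ioo a b, c < t → t < c + δ → |D t v| ≤ ε * (t - c)} with hV
  have hcov : {v ∈ J | ∃ c ∈ Ioo a b, D c v = 0 ∧ ∀ t ∈ Ioo a b, c < t → t < c + δ →
      |D t v| ≤ ε * (t - c)} ⊆ ⋃ i ∈ Finset.range n, V i := by
    rintro v ⟨hvJ, c, hc, h0, hD⟩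
    have hca : 0 < (c - a) / L := div_pos (sub_pos.2 hc.1) hL0
    set i := ⌊(c - a) / L⌋₊ with hi
    have h1 : (i : ℝ) ≤ (c - a) / L := Nat.floor_le hca.le
    have h2 : (c - a) / L < i + 1 := Nat.lt_floor_add_one _
    rw [le_div_iff₀ hL0] at h1
    rw [div_lt_iff₀ hL0] at h2
    have h3 : i < n := by
      have : (i : ℝ) < n := by
        have h4 : (i : ℝ) * L < n * L := by
          have : (n : ℝ) * L = b - a := by rw [hL]; field_simp
          rw [this]
          linarith [hc.2]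
        exact lt_of_mul_lt_mul_right h4 hL0.le
      exact_mod_cast this
    simp only [mem_iUnion]
    exact ⟨i, Finset.mem_range.2 h3, hvJ, c, hc, ⟨by linarith, by linarith⟩, h0, hD⟩
  have hdiam : ∀ i, volume (V i) ≤ ENNReal.ofReal (ε / k * L) := by
    intro i
    refine (Real.volume_le_diam _).trans ?_
    refine Metric.ediam_le fun v hv v' hv' => ?_
    rw [edist_dist]
    refine ENNReal.ofReal_le_ofReal ?_
    rw [Real.dist_eq]
    obtain ⟨hvJ, c, hc, ⟨hc1, hc2⟩, h0, hD⟩ := hv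
    obtain ⟨hvJ', c', hc', ⟨hc1', hc2'⟩, h0', hD'⟩ := hv'
    have key : ∀ (v v' c c' : ℝ), v ∈ J → v' ∈ J → c ∈ Ioo a b → c' ∈ Ioo a b → D c' v' = 0 →
        c < c' → c' - c ≤ L → (∀ t ∈ Ioo a b, c < t → t < c + δ → |D t v| ≤ ε * (t - c)) →
        |v - v'| ≤ ε / k * L := by
      intro v v' c c' hv hv' hc hc' h0' hcc hcL hD
      have h1 := hD c' hc' hcc (by linarith)
      have h2 : |D c' v| ≤ ε * L := h1.trans (mul_le_mul_of_nonneg_left hcL hε)
      rw [abs_le] at h2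
      have h3 : k * |v - v'| ≤ ε * L := by
        rcases lt_trichotomy v v' with h | h | h
        · have := hmono c' hc' v hv v' hv' h
          rw [abs_of_neg (by linarith)]
          linarith
        · rw [h]
          simp only [sub_self, abs_zero, mul_zero]
          positivity
        · have := hmono c' hc' v' hv' v hv h
          rw [abs_of_pos (by linarith)]
          linarith
      rw [div_mul_eq_mul_div, le_div_iff₀ hk]
      linarith
    rcases lt_trichotomy c c' with h | h | h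
    · exact key v v' c c' hvJ hvJ' hc hc' h0' h (by linarith) hD
    · subst h
      have : v = v' := by
        by_contra hne
        rcases lt_or_gt_of_ne hne with h | h
        · have := hmono c hc v hvJ v' hvJ' h
          nlinarith
        · have := hmono c hc v' hvJ' v hvJ h
          nlinarith
      rw [this]
      simp only [sub_self, abs_zero]
      positivity
    · rw [abs_sub_comm]
      exact key v' v c' c hvJ' hvJ hc' hc h0 h (by linarith) hD'
  calc volume _ ≤ volume (⋃ i ∈ Finset.range n, V i) := measure_mono hcov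
    _ ≤ ∑ i ∈ Finset.range n, volume (V i) := measure_biUnion_finset_le _ _
    _ ≤ ∑ _i ∈ Finset.range n, ENNReal.ofReal (ε / k * L) := Finset.sum_le_sum fun i _ => hdiam i
    _ = ENNReal.ofReal (ε / k * (b - a)) := by
        rw [Finset.sum_const, Finset.card_range, nsmul_eq_mul, ← ENNReal.ofReal_natCast,
          ← ENNReal.ofReal_mul hn0.le]
        congr 1
        rw [hL]
        field_simp

/-- The null lemma on a box. -/
lemma null_box (D : ℝ → ℝ → ℝ) (a b : ℝ) (hab : a < b) (J : Set ℝ) (k : ℝ) (hk : 0 < k)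
    (hmono : ∀ t ∈ Ioo a b, ∀ v ∈ J, ∀ v' ∈ J, v < v' → k * (v' - v) ≤ D t v' - D t v) :
    volume {v ∈ J | ∃ c ∈ Ioo a b, D c v = 0 ∧
      (fun t => D t v) =o[𝓝[>] c] (fun t => t - c)} = 0 := by
  set N := {v ∈ J | ∃ c ∈ Ioo a b, D c v = 0 ∧
      (fun t => D t v) =o[𝓝[>] c] (fun t => t - c)} with hN
  have hle : ∀ ε : ℝ, 0 < ε → volume N ≤ ENNReal.ofReal (ε / k * (b - a)) := by
    intro ε hε
    set S : ℕ → Set ℝ := fun m => {v ∈ J | ∃ c ∈ Ioo a b, D c v = 0 ∧
      ∀ t ∈ Ioo a b, c < t → t < c + 1 / ((m : ℝ) + 1) → |D t v| ≤ ε * (t - c)} with hS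
    have hNS : N ⊆ ⋃ m, S m := by
      rintro v ⟨hvJ, c, hc, h0, ho⟩
      have h1 := ho.def hε
      rw [eventually_nhdsWithin_iff, Metric.eventually_nhds_iff] at h1
      obtain ⟨r, hr, h1⟩ := h1
      obtain ⟨m, hm⟩ := exists_nat_one_div_lt hr
      rw [mem_iUnion]
      refine ⟨m, hvJ, c, hc, h0, fun t _ h2 h3 => ?_⟩
      have h4 := h1 (y := t) (by rw [Real.dist_eq, abs_of_pos (by linarith)]; linarith) h2
      rw [Real.norm_eq_abs, Real.norm_eq_abs, abs_of_pos (by linarith : (0 : ℝ) < t - c)] at h4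
      exact h4
    have hmonoS : Monotone S := by
      intro m m' hmm
      rintro v ⟨hvJ, c, hc, h0, h1⟩
      refine ⟨hvJ, c, hc, h0, fun t ht h2 h3 => h1 t ht h2 (h3.trans_le ?_)⟩
      have : (1 : ℝ) / ((m' : ℝ) + 1) ≤ 1 / ((m : ℝ) + 1) := by
        apply one_div_le_one_div_of_le (by positivity)
        have : (m : ℝ) ≤ m' := by exact_mod_cast hmm
        linarith
      linarith
    calc volume N ≤ volume (⋃ m, S m) := measure_mono hNS
      _ = ⨆ m, volume (S m) := hmonoS.measure_iUnion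
      _ ≤ ENNReal.ofReal (ε / k * (b - a)) := by
          refine iSup_le fun m => ?_
          exact null_step D a b hab J k ε (1 / ((m : ℝ) + 1)) hk hε.le (by positivity) hmono
  have hlim : Tendsto (fun ε : ℝ => ENNReal.ofReal (ε / k * (b - a))) (𝓝[>] 0) (𝓝 0) := by
    have h1 : Tendsto (fun ε : ℝ => ε / k * (b - a)) (𝓝 0) (𝓝 (0 / k * (b - a))) := by
      have : Continuous (fun ε : ℝ => ε / k * (b - a)) := by fun_prop
      exact this.tendsto 0
    rw [zero_div, zero_mul] at h1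
    have h2 := ENNReal.tendsto_ofReal h1
    rw [ENNReal.ofReal_zero] at h2
    exact h2.mono_left nhdsWithin_le_nhds
  refine le_antisymm (ge_of_tendsto hlim ?_) zero_le
  exact eventually_nhdsWithin_of_forall fun ε hε => hle ε hε

open Classical in
/-- The null lemma: `D t` grows in `v` at a positive rate near every point of `U`. -/
theorem null_right (D : ℝ → ℝ → ℝ) (U : Set (ℝ × ℝ))
    (hU : ∀ p ∈ U, ∃ k > 0, ∃ r > 0, ∀ t, |t - p.1| < r → ∀ v v', |v - p.2| < r → |v' - p.2| < r →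
      v < v' → k * (v' - v) ≤ D t v' - D t v) :
    volume {v | ∃ c, (c, v) ∈ U ∧ D c v = 0 ∧ (fun t => D t v) =o[𝓝[>] c] (fun t => t - c)} = 0 := by
  set B : ℚ × ℚ × ℚ × ℚ × ℕ → Set ℝ := fun q =>
    if (q.1 : ℝ) < q.2.1 ∧ (∀ t ∈ Ioo (q.1 : ℝ) q.2.1, ∀ v ∈ Ioo (q.2.2.1 : ℝ) q.2.2.2.1,
      ∀ v' ∈ Ioo (q.2.2.1 : ℝ) q.2.2.2.1, v < v' →
      (1 / ((q.2.2.2.2 : ℝ) + 1)) * (v' - v) ≤ D t v' - D t v) then
    {v ∈ Ioo (q.2.2.1 : ℝ) q.2.2.2.1 | ∃ c ∈ Ioo (q.1 : ℝ) q.2.1, D c v = 0 ∧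
      (fun t => D t v) =o[𝓝[>] c] (fun t => t - c)} else ∅ with hB
  have hB0 : ∀ q, volume (B q) = 0 := by
    intro q
    simp only [hB]
    split_ifs with h
    · exact null_box D q.1 q.2.1 h.1 _ _ (by positivity) h.2
    · exact measure_empty
  refine measure_mono_null ?_ (measure_iUnion_null hB0)
  rintro v ⟨c, hcU, h0, ho⟩
  obtain ⟨k, hk, r, hr, hmono⟩ := hU _ hcU
  simp only at hmono
  obtain ⟨a, ha1, ha2⟩ := exists_rat_btwn (show c - r < c by linarith)
  obtain ⟨b, hb1, hb2⟩ := exists_rat_btwn (show c < c + r by linarith)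
  obtain ⟨a', ha1', ha2'⟩ := exists_rat_btwn (show v - r < v by linarith)
  obtain ⟨b', hb1', hb2'⟩ := exists_rat_btwn (show v < v + r by linarith)
  obtain ⟨m, hm⟩ := exists_nat_one_div_lt hk
  rw [mem_iUnion]
  refine ⟨(a, b, a', b', m), ?_⟩
  simp only [hB]
  rw [if_pos]
  · exact ⟨⟨ha2', hb1'⟩, c, ⟨ha2, hb1⟩, h0, ho⟩
  · refine ⟨ha2.trans hb1, fun t ht w hw w' hw' hww => ?_⟩
    have h1 := hmono t (by rw [abs_lt]; constructor <;> linarith [ht.1, ht.2]) w w'
      (by rw [abs_lt]; constructor <;> linarith [hw.1, hw.2])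
      (by rw [abs_lt]; constructor <;> linarith [hw'.1, hw'.2]) hww
    refine le_trans ?_ h1
    exact mul_le_mul_of_nonneg_right hm.le (by linarith)

/-- The null lemma, from the left. -/
theorem null_left (D : ℝ → ℝ → ℝ) (U : Set (ℝ × ℝ))
    (hU : ∀ p ∈ U, ∃ k > 0, ∃ r > 0, ∀ t, |t - p.1| < r → ∀ v v', |v - p.2| < r → |v' - p.2| < r →
      v < v' → k * (v' - v) ≤ D t v' - D t v) :
    volume {v | ∃ c, (c, v) ∈ U ∧ D c v = 0 ∧ (fun t => D t v) =o[𝓝[<] c] (fun t => t - c)} = 0 := by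
  have h := null_right (fun t v => D (-t) v) ((fun p : ℝ × ℝ => (-p.1, p.2)) ⁻¹' U) ?_
  · refine measure_mono_null ?_ h
    rintro v ⟨c, hcU, h0, ho⟩
    refine ⟨-c, ?_, by simpa using h0, ?_⟩
    · simpa using hcU
    · have h1 : Tendsto (fun t : ℝ => -t) (𝓝[>] (-c)) (𝓝[<] c) := by
        have := tendsto_neg_nhdsGT_neg (a := c)
        simpa using this
      have h2 := ho.comp_tendsto h1
      have h3 : ((fun t => t - c) ∘ fun t : ℝ => -t) = fun t => -(t - -c) := by
        funext t; simp only [Function.comp]; ring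
      rw [h3] at h2
      exact h2.neg_right.congr_right fun t => by ring
  · rintro ⟨c, v⟩ hp
    obtain ⟨k, hk, r, hr, h1⟩ := hU _ hp
    refine ⟨k, hk, r, hr, fun t ht w w' hw hw' hww => ?_⟩
    refine h1 (-t) ?_ w w' hw hw' hww
    have : -t - (-c) = -(t - c) := by ring
    simp only at ht ⊢
    rw [this, abs_neg]
    exact ht

end Pool.Agent.H61.XR2
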